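import Pool.Agent.N440.FO.Arith

/-! # Exponential sums over the orbit of an `a`-adic rational under the multiplication by `b` -/

set_option autoImplicit false

open Finset Filter Topology

namespace Pool.Agent.H92.FB

open Pool.Agent.N440.FO

theorem dvd_of_dvd_gs {B : ℕ} (hB : 2 ≤ B) {q : ℕ}
    (hq : ∀ p : ℕ, p.Prime → p ∣ q → (p : ℤ) ∣ (B : ℤ) - 1) (h4 : 2 ∣ q → (4 : ℤ) ∣ (B : ℤ) - 1)
    {k : ℕ} (h : q ∣ gs B k) : q ∣ k := by
  rw [Nat.dvd_iff_prime_pow_dvd_dvd]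
  intro p e hp he
  rcases Nat.eq_zero_or_pos e with rfl | he0
  · simp
  have hpq : p ∣ q := (dvd_pow_self p he0.ne').trans he
  have h1 : ((p : ℤ) ^ e) ∣ ((gs B k : ℕ) : ℤ) := by exact_mod_cast he.trans h
  rw [pow_dvd_iff_le_emultiplicity, emult_gs hp hB (hq p hp hpq) (fun h2 => h4 (h2 ▸ hpq)),
    ← pow_dvd_iff_le_emultiplicity] at h1
  exact_mod_cast h1

theorem gs_injC {B : ℕ} (hB : 2 ≤ B) {q : ℕ}
    (hq : ∀ p : ℕ, p.Prime → p ∣ q → (p : ℤ) ∣ (B : ℤ) - 1) (h4 : 2 ∣ q → (4 : ℤ) ∣ (B : ℤ) - 1)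
    {r s : ℕ} (hrs : r < s) (hs : s < q) : gs B r % q ≠ gs B s % q := by
  intro h
  have h3 : (q : ℤ) ∣ ((gs B s : ℕ) : ℤ) - gs B r := (Nat.modEq_iff_dvd).1 h
  rw [gs_sub B hrs.le] at h3
  have hcop : IsCoprime (q : ℤ) ((B : ℤ) ^ r) := by
    refine IsCoprime.pow_right ?_
    rw [Nat.isCoprime_iff_coprime, Nat.coprime_iff_gcd_eq_one]
    by_contra hne
    obtain ⟨p, hp, hpd⟩ := Nat.exists_prime_and_dvd hne
    have h1 : p ∣ q := hpd.trans (Nat.gcd_dvd_left _ _)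
    have h2 : p ∣ B := hpd.trans (Nat.gcd_dvd_right _ _)
    have h3 := hq p hp h1
    have h5 : (p : ℤ) ∣ 1 := by
      have := dvd_sub (show (p : ℤ) ∣ (B : ℤ) by exact_mod_cast h2) h3
      simpa using this
    have h6 := Int.le_of_dvd one_pos h5
    have := hp.two_le
    omega
  have h5 := hcop.dvd_of_dvd_mul_left h3
  have h8 : q ∣ s - r := dvd_of_dvd_gs hB hq h4 (by exact_mod_cast h5)
  have := Nat.le_of_dvd (by omega) h8
  omega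

theorem sum_gsC {B : ℕ} (hB : 2 ≤ B) {q : ℕ} (hq0 : 0 < q)
    (hq : ∀ p : ℕ, p.Prime → p ∣ q → (p : ℤ) ∣ (B : ℤ) - 1) (h4 : 2 ∣ q → (4 : ℤ) ∣ (B : ℤ) - 1)
    {κ : ℤ} (hκ : ¬ (q : ℤ) ∣ κ) :
    ∑ r ∈ range q, e ((gs B r : ℝ) * (κ / (q : ℝ))) = 0 := by
  have hqr : (q : ℝ) ≠ 0 := by exact_mod_cast hq0.ne'
  set ζ : ℂ := e (κ / (q : ℝ)) with hζ
  have hζK : ζ ^ q = 1 := by
    rw [hζ, ← e_nsmul, mul_div_cancel₀ _ hqr, e_int]
  have hζ1 : ζ ≠ 1 := by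
    intro h
    rw [hζ, e_eq_one_iff] at h
    obtain ⟨m, hm⟩ := h
    rw [div_eq_iff hqr] at hm
    apply hκ
    refine ⟨m, ?_⟩
    have : (κ : ℝ) = ((q * m : ℤ) : ℝ) := by rw [hm]; push_cast; ring
    exact_mod_cast this
  have hmod : ∀ m : ℕ, ζ ^ m = ζ ^ (m % q) := by
    intro m
    conv_lhs => rw [← Nat.div_add_mod m q]
    rw [pow_add, pow_mul, hζK, one_pow, one_mul]
  have h3 : ∀ r ∈ range q, e ((gs B r : ℝ) * (κ / (q : ℝ))) = ζ ^ (gs B r % q) := by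
    intro r _
    rw [e_nsmul, ← hmod]
  rw [Finset.sum_congr rfl h3]
  have hinj : Set.InjOn (fun r => gs B r % q) (range q : Finset ℕ) := by
    intro r hr s hs hrs
    rw [Finset.coe_range, Set.mem_Iio] at hr hs
    rcases lt_trichotomy r s with h | h | h
    · exact absurd hrs (gs_injC hB hq h4 h hs)
    · exact h
    · exact absurd hrs.symm (gs_injC hB hq h4 h hr)
  have himg : (range q).image (fun r => gs B r % q) = range q := by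
    refine Finset.eq_of_subset_of_card_le ?_ ?_
    · intro x hx
      obtain ⟨r, _, rfl⟩ := Finset.mem_image.1 hx
      rw [Finset.mem_range]
      exact Nat.mod_lt _ hq0
    · rw [Finset.card_image_of_injOn hinj]
  have h4 : ∑ r ∈ range q, ζ ^ (gs B r % q) = ∑ s ∈ range q, ζ ^ s := by
    conv_rhs => rw [← himg]
    rw [Finset.sum_image hinj]
  rw [h4, geom_sum_eq hζ1, hζK, sub_self, zero_div]

theorem sum_mul_range (f : ℕ → ℂ) (t q : ℕ) :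
    ∑ i ∈ range (t * q), f i = ∑ j ∈ range t, ∑ r ∈ range q, f (j + t * r) := by
  induction q with
  | zero => simp
  | succ q ih =>
    rw [Nat.mul_succ, Finset.sum_range_add, ih]
    simp_rw [Finset.sum_range_succ, Finset.sum_add_distrib]
    congr 1
    exact Finset.sum_congr rfl fun j _ => by rw [add_comm]

/-- The sums over blocks of a fixed length of the orbit of `D = κ / a ^ n` vanish, unless `W D` is a
`b`-adic rational; `W` depends on `a` and `b` only. -/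
theorem block {a b : ℕ} (ha : 0 < a) (hb : 2 ≤ b) : ∃ W : ℕ, 0 < W ∧ ∀ n : ℕ, ∃ m₀ P : ℕ, 0 < P ∧
    ∀ κ : ℤ, (∀ (j : ℕ) (z : ℤ), (W : ℝ) * (κ / (a : ℝ) ^ n) ≠ z / (b : ℝ) ^ j) →
      ∀ m : ℕ, m₀ ≤ m → ∑ i ∈ range P, e ((b : ℝ) ^ (m + i) * (κ / (a : ℝ) ^ n)) = 0 := by
  obtain ⟨g, a₀, k, hga, hcop, hgk⟩ := decomp b a ha
  have ha₀ : 0 < a₀ := by
    rcases Nat.eq_zero_or_pos a₀ with h | h
    · rw [h, mul_zero] at hga; omega
    · exact h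
  have hg0 : 0 < g := by
    rcases Nat.eq_zero_or_pos g with h | h
    · rw [h, zero_mul] at hga; omega
    · exact h
  set t : ℕ := Nat.totient (a₀ ^ 2) with ht
  have ht0 : 0 < t := Nat.totient_pos.2 (Nat.pow_pos ha₀)
  set B : ℕ := b ^ t with hB
  have hB2 : 2 ≤ B := by
    calc 2 ≤ b := hb
      _ = b ^ 1 := (pow_one b).symm
      _ ≤ b ^ t := Nat.pow_le_pow_right (by omega) (by omega)
  have hmod : ((a₀ ^ 2 : ℕ) : ℤ) ∣ (B : ℤ) - 1 := by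
    have h1 : b ^ t ≡ 1 [MOD a₀ ^ 2] := Nat.ModEq.pow_totient (Nat.Coprime.pow_right 2 hcop.symm)
    have := (Nat.modEq_iff_dvd).1 h1.symm
    exact_mod_cast this
  refine ⟨B - 1, by omega, fun n => ⟨k * n, t * a₀ ^ n, Nat.mul_pos ht0 (Nat.pow_pos ha₀), ?_⟩⟩
  intro κ hκ m hm
  obtain ⟨u, hu⟩ : g ^ n ∣ b ^ (k * n) := by
    rw [pow_mul]
    exact pow_dvd_pow_of_dvd hgk n
  have hq : ∀ p : ℕ, p.Prime → p ∣ a₀ ^ n → (p : ℤ) ∣ (B : ℤ) - 1 := by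
    intro p hp hpa
    have h1 : p ∣ a₀ := hp.dvd_of_dvd_pow hpa
    refine Dvd.dvd.trans ?_ hmod
    exact_mod_cast h1.trans (dvd_pow_self a₀ two_ne_zero)
  have h4 : 2 ∣ a₀ ^ n → (4 : ℤ) ∣ (B : ℤ) - 1 := by
    intro h2
    have h1 : 2 ∣ a₀ := Nat.prime_two.dvd_of_dvd_pow h2
    refine Dvd.dvd.trans ?_ hmod
    have := pow_dvd_pow_of_dvd h1 2
    exact_mod_cast this
  have hb0 : (b : ℝ) ≠ 0 := by
    have : b ≠ 0 := by omega
    exact_mod_cast this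
  have hg1 : (g : ℝ) ≠ 0 := by exact_mod_cast hg0.ne'
  have ha1 : (a₀ : ℝ) ≠ 0 := by exact_mod_cast ha₀.ne'
  have hB1 : ((B - 1 : ℕ) : ℝ) = (B : ℝ) - 1 := by
    rw [Nat.cast_sub (by omega)]; simp
  rw [sum_mul_range]
  refine Finset.sum_eq_zero fun j _ => ?_
  obtain ⟨s, rfl⟩ := Nat.exists_eq_add_of_le hm
  set κ₁ : ℤ := (b : ℤ) ^ (s + j) * (u * κ) with hκ₁
  have hmain : (b : ℝ) ^ (k * n + s + j) * (κ / (a : ℝ) ^ n) = κ₁ / (a₀ : ℝ) ^ n := by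
    have h1 : (b : ℝ) ^ (k * n) = (g : ℝ) ^ n * u := by exact_mod_cast hu
    rw [show k * n + s + j = k * n + (s + j) by ring, pow_add, h1, hga, hκ₁]
    push_cast
    rw [mul_pow]
    field_simp
  have hnot : ¬ ((a₀ ^ n : ℕ) : ℤ) ∣ ((B : ℤ) - 1) * κ₁ := by
    rintro ⟨z, hz⟩
    apply hκ (k * n + s + j) z
    rw [eq_div_iff (pow_ne_zero _ hb0), mul_assoc, mul_comm ((κ : ℝ) / (a : ℝ) ^ n), hmain, hB1]
    rw [mul_div_assoc', div_eq_iff (pow_ne_zero _ ha1)]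
    have : ((B : ℝ) - 1) * κ₁ = (a₀ : ℝ) ^ n * z := by exact_mod_cast hz
    rw [this]; ring
  have key : ∀ r ∈ range (a₀ ^ n), e ((b : ℝ) ^ (k * n + s + (j + t * r)) * (κ / (a : ℝ) ^ n)) =
      e (κ₁ / (a₀ : ℝ) ^ n) *
        e ((gs B r : ℝ) * ((((B : ℤ) - 1) * κ₁ : ℤ) / ((a₀ ^ n : ℕ) : ℝ))) := by
    intro r _
    rw [← e_add]
    congr 1
    have h8 : ((gs B r : ℕ) : ℝ) * ((B : ℝ) - 1) = (B : ℝ) ^ r - 1 := by
      have := gs_mul B r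
      exact_mod_cast this
    have h9 : (b : ℝ) ^ (k * n + s + (j + t * r)) = (b : ℝ) ^ (k * n + s + j) * (B : ℝ) ^ r := by
      rw [hB]; push_cast; rw [← pow_mul, ← pow_add]; congr 1; ring
    rw [h9, mul_right_comm, hmain]
    push_cast
    have h10 : (B : ℝ) ^ r = 1 + (gs B r : ℝ) * ((B : ℝ) - 1) := by rw [h8]; ring
    rw [h10]
    ring
  rw [Finset.sum_congr rfl key, ← Finset.mul_sum, sum_gsC hB2 (Nat.pow_pos ha₀) hq h4 hnot, mul_zero]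

theorem bounded_sum {f : ℕ → ℂ} (h1 : ∀ i, ‖f i‖ ≤ 1) {m₀ P : ℕ} (hP : 0 < P)
    (h : ∀ m : ℕ, m₀ ≤ m → ∑ i ∈ range P, f (m + i) = 0) (N : ℕ) :
    ‖∑ i ∈ range N, f i‖ ≤ m₀ + P := by
  induction N using Nat.strong_induction_on with
  | _ N ih =>
    rcases Nat.lt_or_ge N (m₀ + P) with hN | hN
    · calc ‖∑ i ∈ range N, f i‖ ≤ ∑ i ∈ range N, ‖f i‖ := norm_sum_le _ _
        _ ≤ ∑ _i ∈ range N, (1 : ℝ) := Finset.sum_le_sum fun i _ => h1 i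
        _ = N := by simp
        _ ≤ m₀ + P := by exact_mod_cast hN.le
    · obtain ⟨M, rfl⟩ : ∃ M, N = M + P := ⟨N - P, by omega⟩
      rw [Finset.sum_range_add, h M (by omega), add_zero]
      exact ih M (by omega)

/-- The averages over the orbit of `D = κ / a ^ n` tend to zero, unless `W D` is a `b`-adic rational. -/
theorem avg_tendsto {a b W : ℕ}
    (hW : ∀ n : ℕ, ∃ m₀ P : ℕ, 0 < P ∧
      ∀ κ : ℤ, (∀ (j : ℕ) (z : ℤ), (W : ℝ) * (κ / (a : ℝ) ^ n) ≠ z / (b : ℝ) ^ j) →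
        ∀ m : ℕ, m₀ ≤ m → ∑ i ∈ range P, e ((b : ℝ) ^ (m + i) * (κ / (a : ℝ) ^ n)) = 0)
    {D : ℝ} (hD : ∃ (n : ℕ) (κ : ℤ), D = κ / (a : ℝ) ^ n)
    (hgood : ∀ (j : ℕ) (z : ℤ), (W : ℝ) * D ≠ z / (b : ℝ) ^ j) :
    Tendsto (fun N : ℕ => ‖∑ i ∈ range N, e ((b : ℝ) ^ i * D)‖ ^ 2 / (N : ℝ) ^ 2) atTop (𝓝 0) := by
  obtain ⟨n, κ, rfl⟩ := hD
  obtain ⟨m₀, P, hP, h⟩ := hW n
  have h2 := bounded_sum (f := fun i => e ((b : ℝ) ^ i * (κ / (a : ℝ) ^ n)))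
    (fun i => (norm_e _).le) hP (h κ hgood)
  have hlim : Tendsto (fun N : ℕ => ((m₀ + P : ℝ) / (N : ℝ)) ^ 2) atTop (𝓝 0) := by
    have := (tendsto_const_div_atTop_nhds_zero_nat (m₀ + P : ℝ)).pow 2
    simpa using this
  refine squeeze_zero (fun N => by positivity) (fun N => ?_) hlim
  rw [div_pow]
  gcongr
  exact h2 N

end Pool.Agent.H92.FB
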