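import Pool.Agent.H92.FB.Ind

/-! # Sums of independent `a`-adic rationals without atoms -/

set_option autoImplicit false

open Finset MeasureTheory ProbabilityTheory Filter Topology
open Pool.Agent.H1R3.Det (Circ)

namespace Pool.Agent.H92.FB

open Pool.Agent.N440.FO

variable {Ω : Type*} [MeasurableSpace Ω] {μ : Measure Ω} [IsProbabilityMeasure μ]

theorem indep_sums {Y : ℕ → Ω → ℝ} (hY : ∀ k, Measurable (Y k)) (hind : iIndepFun Y μ) {m n : ℕ}
    (hmn : m ≤ n) : IndepFun (fun ω => ∑ k ∈ range m, Y k ω)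
      (fun ω => ∑ k ∈ range n, Y k ω - ∑ k ∈ range m, Y k ω) μ := by
  classical
  have h1 := hind.indepFun_finset (range m) (range n \ range m) disjoint_sdiff hY
  have hf : ∀ S : Finset ℕ, Measurable fun x : S → ℝ => ∑ k, x k := fun S =>
    Finset.measurable_sum _ fun k _ => measurable_pi_apply k
  have h2 := h1.comp (hf _) (hf _)
  have e1 : (fun x : range m → ℝ => ∑ k, x k) ∘ (fun ω (i : range m) => Y i ω) =
      fun ω => ∑ k ∈ range m, Y k ω := by
    funext ω
    exact Finset.sum_coe_sort (range m) fun k => Y k ω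
  have e2 : (fun x : (range n \ range m : Finset ℕ) → ℝ => ∑ k, x k) ∘
      (fun ω (i : (range n \ range m : Finset ℕ)) => Y i ω) =
      fun ω => ∑ k ∈ range n, Y k ω - ∑ k ∈ range m, Y k ω := by
    funext ω
    have h3 : ∑ k : (range n \ range m : Finset ℕ), Y k ω = ∑ k ∈ range n \ range m, Y k ω :=
      Finset.sum_coe_sort (range n \ range m) fun k => Y k ω
    have h4 := Finset.sum_sdiff (f := fun k => Y k ω) (Finset.range_subset_range.2 hmn)
    show ∑ k : (range n \ range m : Finset ℕ), Y k ω = _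
    rw [h3, ← h4]
    ring
  rw [e1, e2] at h2
  exact h2

theorem conc_int {Y : ℕ → Ω → ℝ} (hY : ∀ k, Measurable (Y k)) (hind : iIndepFun Y μ) {X : Ω → ℝ}
    (hX : Measurable X)
    (hlim : ∀ᵐ ω ∂μ, Tendsto (fun n => ∑ k ∈ range n, Y k ω) atTop (𝓝 (X ω)))
    (hatom : ∀ t : ℝ, μ {ω | X ω = t} = 0) {η : ℝ} (hη : 0 < η) :
    ∃ m : ℕ, ∀ u : ℝ, μ.real {ω | ∃ z : ℤ, ∑ k ∈ range m, Y k ω - u = z} ≤ η := by
  classical
  by_contra hcon
  push Not at hcon
  set A : ℕ → Ω → ℝ := fun m ω => ∑ k ∈ range m, Y k ω with hA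
  have hAm : ∀ m, Measurable (A m) := fun m => Finset.measurable_sum _ fun k _ => hY k
  -- convergence in probability
  have hprob : ∀ ε : ℝ, 0 < ε → Tendsto (fun m => μ.real {ω | |A m ω - X ω| < ε}ᶜ) atTop (𝓝 0) := by
    intro ε hε
    refine tendsto_compl (fun m => ?_) ?_
    · exact measurableSet_lt ((hAm m).sub hX).abs measurable_const
    · filter_upwards [hlim] with ω hω
      have h1 := (Metric.tendsto_nhds.1 hω) ε hε
      filter_upwards [h1] with m hm
      rw [Real.dist_eq] at hm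
      exact hm
  -- tightness
  have htight : Tendsto (fun K : ℕ => μ.real {ω | |X ω| < K}ᶜ) atTop (𝓝 0) := by
    refine tendsto_compl (fun K => measurableSet_lt hX.abs measurable_const) ?_
    refine Filter.Eventually.of_forall fun ω => ?_
    obtain ⟨K, hK⟩ := exists_nat_gt |X ω|
    filter_upwards [eventually_ge_atTop K] with K' hK'
    exact hK.trans_le (by exact_mod_cast hK')
  obtain ⟨K, hK⟩ := (htight.eventually_le_const (u := η / 4) (by positivity)).exists
  set η' : ℝ := η / 2 / (2 * K + 4) with hη'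
  have hη'0 : 0 < η' := by positivity
  have hK1 : ∀ᶠ m in atTop, μ.real {ω | |A m ω| < K + 1}ᶜ ≤ η / 2 := by
    filter_upwards [(hprob 1 one_pos).eventually_le_const (u := η / 4) (by positivity)] with m hm
    have hsub : {ω | |A m ω| < K + 1}ᶜ ⊆ {ω | |X ω| < K}ᶜ ∪ {ω | |A m ω - X ω| < 1}ᶜ := by
      intro ω hω
      by_contra h
      rw [Set.mem_union, not_or, Set.notMem_compl_iff, Set.notMem_compl_iff] at h
      apply hω
      have h1 : |X ω| < K := h.1
      have h2 : |A m ω - X ω| < 1 := h.2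
      show |A m ω| < K + 1
      calc |A m ω| = |(A m ω - X ω) + X ω| := by ring_nf
        _ ≤ |A m ω - X ω| + |X ω| := abs_add_le _ _
        _ < K + 1 := by linarith
    calc _ ≤ _ := measureReal_mono hsub (measure_ne_top _ _)
      _ ≤ _ := measureReal_union_le _ _
      _ ≤ η / 4 + η / 4 := add_le_add hK hm
      _ = η / 2 := by ring
  -- a point with a large probability
  have hW : ∀ᶠ m in atTop, ∃ w : ℝ, |w| ≤ K + 3 ∧ η' ≤ μ.real {ω | A m ω = w} := by
    filter_upwards [hK1] with m hm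
    obtain ⟨u, hu⟩ := hcon m
    by_contra hno
    push Not at hno
    set J : Finset ℤ := Finset.Icc (-(K : ℤ) - 2) (K + 1) with hJ
    have hsub : {ω | ∃ z : ℤ, A m ω - u = z} ⊆ {ω | |A m ω| < K + 1}ᶜ ∪
        ⋃ z ∈ J, {ω | A m ω = Int.fract u + z} := by
      rintro ω ⟨z, hz⟩
      by_cases hω : |A m ω| < K + 1
      · right
        rw [Set.mem_iUnion₂]
        refine ⟨z + ⌊u⌋, ?_, ?_⟩
        · have h1 : A m ω = Int.fract u + ((z + ⌊u⌋ : ℤ) : ℝ) := by
            rw [Int.fract]; push_cast; linarith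
          have h2 := Int.fract_nonneg u
          have h3 := Int.fract_lt_one u
          rw [abs_lt] at hω
          rw [hJ, Finset.mem_Icc]
          constructor
          · have h4 : (-(K : ℝ) - 2) < ((z + ⌊u⌋ : ℤ) : ℝ) := by linarith
            have h5 : (-(K : ℤ) - 2) < z + ⌊u⌋ := by exact_mod_cast h4
            exact h5.le
          · have h4 : ((z + ⌊u⌋ : ℤ) : ℝ) < K + 1 := by linarith
            have h5 : z + ⌊u⌋ < (K : ℤ) + 1 := by exact_mod_cast h4
            exact h5.le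
        · show A m ω = _
          rw [Int.fract]; push_cast; linarith
      · left; exact hω
    have hcard : (J.card : ℝ) = 2 * K + 4 := by
      rw [hJ, Int.card_Icc]
      have : ((K : ℤ) + 1 + 1 - (-(K : ℤ) - 2)).toNat = 2 * K + 4 := by omega
      rw [this]; push_cast; ring
    have h1 : μ.real {ω | ∃ z : ℤ, A m ω - u = z} ≤ η / 2 + ∑ z ∈ J, μ.real {ω | A m ω = Int.fract u + z} := by
      calc _ ≤ _ := measureReal_mono hsub (measure_ne_top _ _)
        _ ≤ _ := measureReal_union_le _ _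
        _ ≤ _ := add_le_add hm (measureReal_biUnion_finset_le _ _)
    have h2 : ∑ z ∈ J, μ.real {ω | A m ω = Int.fract u + z} ≤ ∑ _z ∈ J, η' := by
      refine Finset.sum_le_sum fun z hz => ?_
      refine (hno _ ?_).le
      rw [hJ, Finset.mem_Icc] at hz
      have h3 := Int.fract_nonneg u
      have h4 := Int.fract_lt_one u
      have h5 : (-(K : ℝ) - 2) ≤ z := by exact_mod_cast hz.1
      have h6 : (z : ℝ) ≤ K + 1 := by exact_mod_cast hz.2
      rw [abs_le]
      constructor <;> linarith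
    rw [Finset.sum_const, nsmul_eq_mul, hcard] at h2
    have h3 : (2 * (K : ℝ) + 4) * η' = η / 2 := by
      rw [hη', mul_div_cancel₀ _ (by positivity)]
    rw [h3] at h2
    linarith
  -- concentration of the limit
  have hC : ∀ ε : ℝ, 0 < ε → ∃ w : ℝ, |w| ≤ K + 3 ∧ η' / 4 ≤ μ.real {ω | |X ω - w| < 3 * ε} := by
    intro ε hε
    obtain ⟨m, ⟨w, hw, hwm⟩, hm⟩ := (hW.and
      ((hprob ε hε).eventually_le_const (u := 1 / 4) (by norm_num))).exists
    obtain ⟨n, hmn, hn1, hn2⟩ := ((eventually_ge_atTop m).and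
      (((hprob ε hε).eventually_le_const (u := 1 / 4) (by norm_num)).and
      ((hprob ε hε).eventually_le_const (u := η' / 4) (by positivity)))).exists
    refine ⟨w, hw, ?_⟩
    have hi := indep_sums hY hind hmn
    have hS : MeasurableSet {x : ℝ | |x| < 2 * ε} := measurableSet_lt measurable_id.abs measurable_const
    have h1 : μ.real ({ω | A m ω = w} ∩ {ω | |A n ω - A m ω| < 2 * ε}) =
        μ.real {ω | A m ω = w} * μ.real {ω | |A n ω - A m ω| < 2 * ε} := by
      have h2 := hi.measure_inter_preimage_eq_mul {w} {x : ℝ | |x| < 2 * ε}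
        (MeasurableSet.singleton w) hS
      have h3 := congrArg ENNReal.toReal h2
      rw [ENNReal.toReal_mul] at h3
      exact h3
    have h2 : (1 : ℝ) / 2 ≤ μ.real {ω | |A n ω - A m ω| < 2 * ε} := by
      have hms : MeasurableSet {ω | |A n ω - A m ω| < 2 * ε} :=
        measurableSet_lt ((hAm n).sub (hAm m)).abs measurable_const
      have hsub : {ω | |A n ω - A m ω| < 2 * ε}ᶜ ⊆ {ω | |A m ω - X ω| < ε}ᶜ ∪ {ω | |A n ω - X ω| < ε}ᶜ := by
        intro ω hω
        by_contra h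
        rw [Set.mem_union, not_or, Set.notMem_compl_iff, Set.notMem_compl_iff] at h
        apply hω
        have h4 : |A m ω - X ω| < ε := h.1
        have h5 : |A n ω - X ω| < ε := h.2
        show |A n ω - A m ω| < 2 * ε
        rw [abs_lt] at *
        constructor <;> linarith [h4.1, h4.2, h5.1, h5.2]
      have h4 : μ.real {ω | |A n ω - A m ω| < 2 * ε}ᶜ ≤ 1 / 4 + 1 / 4 := by
        calc _ ≤ _ := measureReal_mono hsub (measure_ne_top _ _)
          _ ≤ _ := measureReal_union_le _ _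
          _ ≤ _ := add_le_add hm hn1
      rw [measureReal_compl hms] at h4
      simp only [probReal_univ] at h4
      linarith
    have h3 : {ω | A m ω = w} ∩ {ω | |A n ω - A m ω| < 2 * ε} ⊆
        {ω | |X ω - w| < 3 * ε} ∪ {ω | |A n ω - X ω| < ε}ᶜ := by
      rintro ω ⟨h4, h5⟩
      by_cases h6 : |A n ω - X ω| < ε
      · left
        have h7 : A m ω = w := h4
        have h8 : |A n ω - A m ω| < 2 * ε := h5
        rw [h7] at h8
        show |X ω - w| < 3 * ε
        rw [abs_lt] at *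
        constructor <;> linarith [h6.1, h6.2, h8.1, h8.2]
      · right; exact h6
    have h4 : μ.real {ω | A m ω = w} * μ.real {ω | |A n ω - A m ω| < 2 * ε} ≤
        μ.real {ω | |X ω - w| < 3 * ε} + η' / 4 := by
      rw [← h1]
      calc _ ≤ _ := measureReal_mono h3 (measure_ne_top _ _)
        _ ≤ _ := measureReal_union_le _ _
        _ ≤ _ := add_le_add le_rfl hn2
    have h5 : η' * (1 / 2) ≤ μ.real {ω | A m ω = w} * μ.real {ω | |A n ω - A m ω| < 2 * ε} := by
      gcongr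
    linarith
  -- compactness
  choose w hw1 hw2 using fun i : ℕ => hC (1 / (i + 1)) (by positivity)
  obtain ⟨w₀, _, φ, hφ, hφlim⟩ := (isCompact_Icc (a := -((K : ℝ) + 3)) (b := K + 3)).tendsto_subseq
    (x := w) fun i => abs_le.1 (hw1 i)
  have hbig : ∀ δ : ℝ, 0 < δ → η' / 4 ≤ μ.real {ω | |X ω - w₀| < δ} := by
    intro δ hδ
    have h1 := (Metric.tendsto_nhds.1 hφlim) (δ / 2) (by positivity)
    have h2 : ∀ᶠ i : ℕ in atTop, 3 * (1 / (((φ i : ℕ) : ℝ) + 1)) < δ / 2 := by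
      have h3 : Tendsto (fun i : ℕ => 3 * (1 / ((i : ℝ) + 1))) atTop (𝓝 0) := by
        have := (tendsto_one_div_add_atTop_nhds_zero_nat (𝕜 := ℝ)).const_mul 3
        simpa using this
      have h4 := h3.comp hφ.tendsto_atTop
      have h5 := (tendsto_order.1 h4).2 (δ / 2) (by positivity)
      exact h5
    obtain ⟨i, hi1, hi2⟩ := (h1.and h2).exists
    refine (hw2 (φ i)).trans (measureReal_mono ?_ (measure_ne_top _ _))
    intro ω hω
    have h5 : |X ω - w (φ i)| < 3 * (1 / (((φ i : ℕ) : ℝ) + 1)) := hω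
    rw [Real.dist_eq] at hi1
    have h6 : |w (φ i) - w₀| < δ / 2 := hi1
    show |X ω - w₀| < δ
    calc |X ω - w₀| = |(X ω - w (φ i)) + (w (φ i) - w₀)| := by ring_nf
      _ ≤ |X ω - w (φ i)| + |w (φ i) - w₀| := abs_add_le _ _
      _ < δ := by linarith
  have hz : Tendsto (fun j : ℕ => μ.real {ω | 1 / ((j : ℝ) + 1) ≤ |X ω - w₀|}ᶜ) atTop (𝓝 0) := by
    refine tendsto_compl (fun j => measurableSet_le measurable_const (hX.sub_const _).abs) ?_
    have h1 : ∀ᵐ ω ∂μ, X ω ≠ w₀ := by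
      rw [ae_iff]
      simpa using hatom w₀
    filter_upwards [h1] with ω hω
    have h2 : 0 < |X ω - w₀| := abs_pos.2 (sub_ne_zero.2 hω)
    exact (tendsto_one_div_add_atTop_nhds_zero_nat (𝕜 := ℝ)).eventually_le_const h2
  obtain ⟨j, hj⟩ := (hz.eventually_lt_const (u := η' / 4) (by positivity)).exists
  have h1 := hbig (1 / ((j : ℝ) + 1)) (by positivity)
  have h2 : {ω | |X ω - w₀| < 1 / ((j : ℝ) + 1)} = {ω | 1 / ((j : ℝ) + 1) ≤ |X ω - w₀|}ᶜ := by
    ext ω; simp
  rw [h2] at h1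
  linarith

theorem spread_sums {a b : ℕ} (ha : 2 ≤ a) (hb : 2 ≤ b) (hab : Nat.Coprime a b)
    {Y : ℕ → Ω → ℝ} (hY : ∀ k, Measurable (Y k)) (hind : iIndepFun Y μ)
    (hval : ∀ k, ∀ᵐ ω ∂μ, ∃ (n : ℕ) (κ : ℤ), Y k ω = κ / (a : ℝ) ^ n) {X : Ω → ℝ}
    (hX : Measurable X)
    (hlim : ∀ᵐ ω ∂μ, Tendsto (fun n => ∑ k ∈ range n, Y k ω) atTop (𝓝 (X ω)))
    (hatom : ∀ t : ℝ, μ {ω | X ω = t} = 0) : SpreadC μ a b X := by
  intro η hη
  obtain ⟨m, hm⟩ := conc_int hY hind hX hlim hatom hη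
  have hAd : ∀ᵐ ω ∂μ, ∃ (n : ℕ) (κ : ℤ), ∑ k ∈ range m, Y k ω = κ / (a : ℝ) ^ n := by
    filter_upwards [ae_all_iff.2 hval] with ω hω
    exact adic_sum (by omega) (range m) fun k _ => hω k
  refine ⟨fun ω => ∑ k ∈ range m, Y k ω, Finset.measurable_sum _ fun k _ => hY k,
    fun θ => char_le hY hind hlim (range m) θ, hAd, fun v => ?_⟩
  set A : Ω → ℝ := fun ω => ∑ k ∈ range m, Y k ω with hA
  set Ev : Set Ω := {ω | ∃ (j : ℕ) (z : ℤ), A ω - v = z / (b : ℝ) ^ j} with hEv
  set Ad : Set Ω := {ω | ∃ (n : ℕ) (κ : ℤ), A ω = κ / (a : ℝ) ^ n} with hAdd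
  have hcompl : μ.real Adᶜ = 0 := by
    rw [measureReal_eq_zero_iff]
    exact hAd
  have hle : μ.real Ev ≤ μ.real (Ev ∩ Ad) := by
    calc μ.real Ev ≤ μ.real ((Ev ∩ Ad) ∪ Adᶜ) := by
          refine measureReal_mono ?_ (measure_ne_top _ _)
          intro ω hω
          by_cases h : ω ∈ Ad
          · left; exact ⟨hω, h⟩
          · right; exact h
      _ ≤ μ.real (Ev ∩ Ad) + μ.real Adᶜ := measureReal_union_le _ _
      _ = μ.real (Ev ∩ Ad) := by rw [hcompl, add_zero]
  refine hle.trans ?_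
  rcases (Ev ∩ Ad).eq_empty_or_nonempty with hemp | ⟨ω₀, ⟨j₀, z₀, h₀⟩, n₀, κ₀, h₀'⟩
  · rw [hemp, measureReal_empty]; exact hη.le
  · refine le_trans (measureReal_mono ?_ (measure_ne_top _ _)) (hm (A ω₀))
    rintro ω ⟨⟨j, z, h⟩, n, κ, h'⟩
    show ∃ z : ℤ, A ω - A ω₀ = z
    have ha0 : (a : ℝ) ≠ 0 := by
      have : a ≠ 0 := by omega
      exact_mod_cast this
    have hb0 : (b : ℝ) ≠ 0 := by
      have : b ≠ 0 := by omega
      exact_mod_cast this
    have e1 : (A ω - A ω₀) * (b : ℝ) ^ (j + j₀) = ((z * (b : ℤ) ^ j₀ - z₀ * (b : ℤ) ^ j : ℤ) : ℝ) := by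
      have : A ω - A ω₀ = z / (b : ℝ) ^ j - z₀ / (b : ℝ) ^ j₀ := by rw [← h, ← h₀]; ring
      rw [this, pow_add]
      push_cast
      field_simp
    have e2 : (A ω - A ω₀) * (a : ℝ) ^ (n + n₀) = ((κ * (a : ℤ) ^ n₀ - κ₀ * (a : ℤ) ^ n : ℤ) : ℝ) := by
      rw [h', h₀', pow_add]
      push_cast
      field_simp
    have hcop : IsCoprime ((a : ℤ) ^ (n + n₀)) ((b : ℤ) ^ (j + j₀)) :=
      (Nat.isCoprime_iff_coprime.2 hab).pow
    obtain ⟨s, t, hst⟩ := hcop
    refine ⟨s * (κ * (a : ℤ) ^ n₀ - κ₀ * (a : ℤ) ^ n) + t * (z * (b : ℤ) ^ j₀ - z₀ * (b : ℤ) ^ j), ?_⟩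
    have hst' : (s : ℝ) * (a : ℝ) ^ (n + n₀) + t * (b : ℝ) ^ (j + j₀) = 1 := by exact_mod_cast hst
    rw [Int.cast_add, Int.cast_mul, Int.cast_mul, ← e1, ← e2]
    calc A ω - A ω₀ = (A ω - A ω₀) * 1 := by ring
      _ = _ := by rw [← hst']; ring

end Pool.Agent.H92.FB
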