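import Pool.Agent.H92.FB.Atom
import Pool.Agent.N440.FO.Count

/-! # Countable orbit closures in base `a`; all bases together; arbitrarily slow perturbations -/

set_option autoImplicit false

open Finset MeasureTheory ProbabilityTheory Filter Topology
open Pool.Agent.H1R3.Det (Circ)

namespace Pool.Agent.H92.FB

open Pool.Agent.N440.FO

theorem countable_XX {a : ℕ} (ha : 2 ≤ a) {c : ℕ → ℤ} {C : ℕ} (hC : ∀ k, |c k| ≤ C) {n : ℕ → ℕ}
    (hn : StrictMono n) (h0 : 1 ≤ n 0) (hgap : ∀ L : ℕ, ∃ K : ℕ, ∀ k, K ≤ k → n k + L ≤ n (k + 1)) :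
    (closure (Set.range fun k : ℕ => Int.fract ((a : ℝ) ^ k * XX a c n))).Countable := by
  classical
  have hn1 : ∀ k, 1 ≤ n k := fun k => h0.trans (hn.monotone (Nat.zero_le k))
  set ε : ℕ → ℤ := fun m => if h : ∃ k, n k = m + 1 then c h.choose else 0 with hε
  have hεk : ∀ k, ε (n k - 1) = c k := by
    intro k
    have hex : ∃ k', n k' = (n k - 1) + 1 := ⟨k, by have := hn1 k; omega⟩
    have h1 : hex.choose = k := by
      apply hn.injective
      rw [hex.choose_spec]
      have := hn1 k; omega
    simp only [hε]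
    rw [dif_pos hex, h1]
  have hεM : ∀ m, |ε m| ≤ (C : ℤ) := by
    intro m
    simp only [hε]
    split_ifs with h
    · exact hC _
    · simp
  have hε0 : ∀ m, ε m ≠ 0 → ∃ k, n k = m + 1 := by
    intro m hm
    by_contra h
    apply hm
    simp only [hε]
    rw [dif_neg h]
  have hinj : Function.Injective fun k => n k - 1 := by
    intro k k' h
    apply hn.injective
    have h1 := hn1 k
    have h2 := hn1 k'
    simp only at h
    omega
  have hsum : ∑' m, (ε m : ℝ) / (a : ℝ) ^ (m + 1) = XX a c n := by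
    unfold XX
    rw [← hinj.tsum_eq (f := fun m => (ε m : ℝ) / (a : ℝ) ^ (m + 1))]
    · refine tsum_congr fun k => ?_
      rw [hεk]
      congr 2
      have := hn1 k; omega
    · intro m hm
      have h1 : ε m ≠ 0 := by
        intro h
        apply hm
        simp [h]
      obtain ⟨k, hk⟩ := hε0 m h1
      exact ⟨k, by simp only; omega⟩
  apply countable_fract
  rw [← hsum]
  refine countable_orbit ha hεM fun L => ?_
  obtain ⟨K, hK⟩ := hgap L
  refine ⟨n K, fun m m' hm hmm h1 h2 => ?_⟩
  obtain ⟨k, hk⟩ := hε0 m h1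
  obtain ⟨k', hk'⟩ := hε0 m' h2
  have h3 : k < k' := by
    rw [← hn.lt_iff_lt]; omega
  have h4 : K ≤ k := by
    rw [← hn.le_iff_le]; omega
  have h5 := hK k h4
  have h6 : n (k + 1) ≤ n k' := hn.monotone (by omega)
  omega

theorem gap_of_ratio {n : ℕ → ℕ} (hn : StrictMono n)
    (hr : Tendsto (fun k => (n (k + 1) : ℝ) / n k) atTop atTop) (L : ℕ) :
    ∃ K : ℕ, ∀ k, K ≤ k → n k + L ≤ n (k + 1) := by
  obtain ⟨K, hK⟩ := eventually_atTop.1 (hr.eventually_ge_atTop 2)
  refine ⟨max K (L + 1), fun k hk => ?_⟩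
  have h1 := hK k ((le_max_left _ _).trans hk)
  have h2 : L + 1 ≤ k := (le_max_right _ _).trans hk
  have h3 : k ≤ n k := hn.le_apply
  have h4 : (0 : ℝ) < n k := by
    have : 0 < n k := by omega
    exact_mod_cast this
  rw [le_div_iff₀ h4] at h1
  have h5 : 2 * n k ≤ n (k + 1) := by exact_mod_cast h1
  omega

variable {Ω : Type*} [MeasurableSpace Ω] {μ : Measure Ω} [IsProbabilityMeasure μ]

/-- **Random exponents.** Almost surely the orbits are dense in all multiplicatively independent
bases. -/
theorem dense_gaps {a : ℕ} (ha : 2 ≤ a) {c : ℕ → ℤ} (hc0 : ∀ k, c k ≠ 0) {C : ℕ} (hC : ∀ k, |c k| ≤ C)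
    {N : ℕ → Ω → ℕ} (hN : ∀ k, Measurable (N k)) (hind : iIndepFun N μ) (hE : Equi μ N)
    (hmono : ∀ ω, StrictMono fun k => N k ω)
    (hratio : ∀ᵐ ω ∂μ, Tendsto (fun k => (N (k + 1) ω : ℝ) / N k ω) atTop atTop) :
    ∀ᵐ ω ∂μ, ∀ b : ℕ, 2 ≤ b → (∀ k l : ℕ, 0 < k → 0 < l → a ^ k ≠ b ^ l) →
      Dense (Set.range fun n : ℕ => b ^ n • ((XX a c (fun k => N k ω) : ℝ) : Circ)) := by
  rw [ae_all_iff]
  intro b
  by_cases hb : 2 ≤ b
  swap
  · exact Filter.Eventually.of_forall fun ω h => absurd h hb
  by_cases hab : ∀ k l : ℕ, 0 < k → 0 < l → a ^ k ≠ b ^ l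
  swap
  · exact Filter.Eventually.of_forall fun ω _ h => absurd h hab
  have hXm := measurable_XX ha hC hN hmono
  by_cases hp : ∃ p : ℕ, p.Prime ∧ p ∣ a ∧ ¬ p ∣ b
  · obtain ⟨p, hpp, hpa, hpb⟩ := hp
    filter_upwards [dense_spread (by omega : 0 < a) hb hXm
      (spread_gaps ha hb hpp hpa hpb hc0 hC hN hind hE hmono)] with ω hω _ _ using hω
  · push Not at hp
    filter_upwards [dense_of hXm fun H η hη => hmom_gaps ha hb hab hp hc0 hC hN hE hmono hratio H hη]
      with ω hω _ _ using hω

/-- counting a residue class in an interval -/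
theorem card_mod (n M q r : ℕ) (hq : 0 < q) (hr : r < q) :
    |(((range M).filter fun u => (n + u) % q = r).card : ℝ) - M / q| ≤ 1 := by
  set v : ℕ := r + (q - n % q) with hv
  have h1 : (range M).filter (fun u => (n + u) % q = r) = (range M).filter (fun u => u ≡ v [MOD q]) := by
    refine Finset.filter_congr fun u _ => ?_
    have hnq : n % q < q := Nat.mod_lt _ hq
    have h3 : v + n ≡ r [MOD q] := by
      have h4 : v + n = r + q * (1 + n / q) := by
        have := Nat.div_add_mod n q
        rw [hv, mul_add, mul_one]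
        omega
      rw [h4]
      exact (Nat.modEq_iff_dvd.2 ⟨-(1 + n / q : ℕ), by push_cast; ring⟩ : r + q * (1 + n / q) ≡ r [MOD q])
    constructor
    · intro h
      have h5 : n + u ≡ r [MOD q] := by
        unfold Nat.ModEq
        rw [h, Nat.mod_eq_of_lt hr]
      have h6 : u + n ≡ v + n [MOD q] := by
        rw [add_comm u n]; exact h5.trans h3.symm
      exact Nat.ModEq.add_right_cancel' n h6
    · intro h
      have h5 : n + u ≡ r [MOD q] := by
        rw [add_comm]
        exact (h.add_right n).trans h3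
      unfold Nat.ModEq at h5
      rw [h5, Nat.mod_eq_of_lt hr]
  rw [h1, ← Nat.count_eq_card_filter_range, Nat.count_modEq_card M hq v]
  have h2 := Nat.div_add_mod M q
  have h3 : M % q < q := Nat.mod_lt _ hq
  have hqr : (0 : ℝ) < q := by exact_mod_cast hq
  have h4 : (M : ℝ) / q = (M / q : ℕ) + ((M % q : ℕ) : ℝ) / q := by
    rw [eq_comm, ← sub_eq_zero]
    field_simp
    have : (q : ℝ) * (M / q : ℕ) + (M % q : ℕ) = M := by exact_mod_cast h2
    linarith
  have h5 : ((M % q : ℕ) : ℝ) / q ≤ 1 := by
    rw [div_le_one hqr]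
    exact_mod_cast h3.le
  have h6 : (0 : ℝ) ≤ ((M % q : ℕ) : ℝ) / q := by positivity
  rw [h4, abs_le]
  push_cast
  split_ifs <;> constructor <;> push_cast <;> linarith

/-- Every sequence of exponents with `n (k + 1) / n k → ∞` may be changed by arbitrarily slowly
growing amounts such that the orbits become dense in all multiplicatively independent bases. -/
theorem exists_perturb {a : ℕ} (ha : 2 ≤ a) {c : ℕ → ℤ} (hc0 : ∀ k, c k ≠ 0) {C : ℕ}
    (hC : ∀ k, |c k| ≤ C) {n J : ℕ → ℕ} (hn : StrictMono n) (hn0 : 1 ≤ n 0)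
    (hr : Tendsto (fun k => (n (k + 1) : ℝ) / n k) atTop atTop) (hJ : Tendsto J atTop atTop) :
    ∃ u : ℕ → ℕ, (∀ k, u k ≤ J k) ∧ StrictMono (fun k => n k + u k) ∧
      (closure (Set.range fun k : ℕ =>
        Int.fract ((a : ℝ) ^ k * XX a c (fun k => n k + u k)))).Countable ∧
      ∀ b : ℕ, 2 ≤ b → (∀ k l : ℕ, 0 < k → 0 < l → a ^ k ≠ b ^ l) →
        Dense (Set.range fun i : ℕ => b ^ i • ((XX a c (fun k => n k + u k) : ℝ) : Circ)) := by
  classical
  -- the lengths
  set M : ℕ → ℕ := fun k => min (J k) (min (n k) (n (k + 1) - n k - 1)) + 1 with hM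
  have hM0 : ∀ k, (range (M k)).Nonempty := fun k => by
    rw [Finset.nonempty_range_iff]; simp only [hM]; omega
  have hMlim : Tendsto M atTop atTop := by
    rw [tendsto_atTop]
    intro T
    obtain ⟨K, hK⟩ := gap_of_ratio hn hr (T + 1)
    filter_upwards [hJ.eventually_ge_atTop T, eventually_ge_atTop (max K T)] with k h1 h2
    have h3 := hK k ((le_max_left _ _).trans h2)
    have h4 : k ≤ n k := hn.le_apply
    have h5 : T ≤ k := (le_max_right _ _).trans h2
    simp only [hM]
    omega
  obtain ⟨Ω, _, P, Y, hY, hlaw, hind, hP⟩ := exists_hasLaw_indepFun (fun _ : ℕ => ℕ)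
    (fun k => (PMF.uniformOfFinset (range (M k)) (hM0 k)).toMeasure)
  -- the values are in the ranges, almost surely: replace them
  set Z : ℕ → Ω → ℕ := fun k ω => min (Y k ω) (M k - 1) with hZ
  have hfm : ∀ k, Measurable fun y : ℕ => min y (M k - 1) := fun k => measurable_from_nat
  have hZm : ∀ k, Measurable (Z k) := fun k => (hfm k).comp (hY k)
  have hZi : iIndepFun Z P := hind.comp (fun k y => min y (M k - 1)) hfm
  set N : ℕ → Ω → ℕ := fun k ω => n k + Z k ω with hN
  have hNm : ∀ k, Measurable (N k) := fun k => (hZm k).const_add _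
  have hNi : iIndepFun N P := hZi.comp (fun k y => n k + y) fun k => measurable_from_nat
  have hZle : ∀ k ω, Z k ω ≤ min (J k) (min (n k) (n (k + 1) - n k - 1)) := by
    intro k ω
    have h1 : Z k ω ≤ M k - 1 := min_le_right _ _
    simp only [hM] at h1
    omega
  have hmono : ∀ ω, StrictMono fun k => N k ω := by
    intro ω
    refine strictMono_nat_of_lt_succ fun k => ?_
    have h1 := hZle k ω
    have h2 : n k < n (k + 1) := hn (Nat.lt_succ_self k)
    simp only [hN]
    omega
  have hratio : ∀ ω, Tendsto (fun k => (N (k + 1) ω : ℝ) / N k ω) atTop atTop := by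
    intro ω
    have h1 : Tendsto (fun k => (n (k + 1) : ℝ) / n k / 2) atTop atTop := hr.atTop_div_const two_pos
    refine tendsto_atTop_mono (fun k => ?_) h1
    have h2 := hZle k ω
    have h3 : 1 ≤ n k := hn0.trans (hn.monotone (Nat.zero_le k))
    have h4 : (0 : ℝ) < n k := by exact_mod_cast h3
    have h5 : (N k ω : ℝ) ≤ 2 * n k := by
      have : N k ω ≤ 2 * n k := by simp only [hN]; omega
      exact_mod_cast this
    have h6 : (n (k + 1) : ℝ) ≤ N (k + 1) ω := by
      have : n (k + 1) ≤ N (k + 1) ω := by simp only [hN]; omega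
      exact_mod_cast this
    have h7 : (0 : ℝ) < N k ω := by
      have : 0 < N k ω := by simp only [hN]; omega
      exact_mod_cast this
    rw [div_div, div_le_div_iff₀ (by positivity) h7]
    have h8 : (0 : ℝ) ≤ n (k + 1) := Nat.cast_nonneg _
    nlinarith
  have hE : Equi P N := by
    intro q r hrq
    have hq : 0 < q := by omega
    have hq' : (0 : ℝ) < q := by exact_mod_cast hq
    have hreal : ∀ k, P.real {ω | N k ω % q = r} =
        (((range (M k)).filter fun u => (n k + u) % q = r).card : ℝ) / M k := by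
      intro k
      have hms : MeasurableSet {y : ℕ | (n k + min y (M k - 1)) % q = r} := MeasurableSet.of_discrete
      have h1 : P {ω | N k ω % q = r} =
          (PMF.uniformOfFinset (range (M k)) (hM0 k)).toMeasure {y | (n k + min y (M k - 1)) % q = r} := by
        rw [← (hlaw k).map_eq, Measure.map_apply (hY k) hms]
        rfl
      rw [Measure.real, h1, PMF.toMeasure_uniformOfFinset_apply _ _ hms]
      have h2 : ∀ inst : DecidablePred (fun x : ℕ => x ∈ {y : ℕ | (n k + min y (M k - 1)) % q = r}),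
          @Finset.filter ℕ (fun x => x ∈ {y : ℕ | (n k + min y (M k - 1)) % q = r}) inst (range (M k)) =
          (range (M k)).filter fun u => (n k + u) % q = r := by
        intro inst
        ext u
        rw [Finset.mem_filter, Finset.mem_filter]
        refine and_congr_right fun hu => ?_
        have h3 : u < M k := Finset.mem_range.1 hu
        have h4 : min u (M k - 1) = u := by omega
        show (n k + min u (M k - 1)) % q = r ↔ _
        rw [h4]
      rw [h2, card_range, ENNReal.toReal_div]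
      simp
    have hlim : Tendsto (fun k => 1 / (M k : ℝ)) atTop (𝓝 0) := by
      have := tendsto_one_div_atTop_nhds_zero_nat (𝕜 := ℝ)
      exact this.comp hMlim
    rw [tendsto_iff_dist_tendsto_zero]
    refine squeeze_zero (fun k => dist_nonneg) (fun k => ?_) hlim
    have hMk : (0 : ℝ) < M k := by
      have : 0 < M k := by simp only [hM]; omega
      exact_mod_cast this
    rw [hreal, Real.dist_eq]
    have h1 := card_mod (n k) (M k) q r hq hrq
    have h2 : (((range (M k)).filter fun u => (n k + u) % q = r).card : ℝ) / M k - 1 / q =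
        ((((range (M k)).filter fun u => (n k + u) % q = r).card : ℝ) - M k / q) / M k := by
      field_simp
    rw [h2, abs_div, abs_of_pos hMk]
    gcongr
  obtain ⟨ω, hω⟩ := (dense_gaps (μ := P) ha hc0 hC hNm hNi hE hmono
    (Filter.Eventually.of_forall hratio)).exists
  refine ⟨fun k => Z k ω, fun k => (hZle k ω).trans (min_le_left _ _), hmono ω, ?_, hω⟩
  exact countable_XX ha hC (hmono ω) (hn0.trans (Nat.le_add_right _ _)) (gap_of_ratio (hmono ω) (hratio ω))

end Pool.Agent.H92.FB
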