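import Pool.Agent.H92.FB.Win3

/-! # Sums of `c k / a ^ N k` with random exponents, bases divisible by all prime factors of `a` -/

set_option autoImplicit false

open Finset MeasureTheory ProbabilityTheory Filter Topology
open Pool.Agent.H1R3.Det (Circ)

namespace Pool.Agent.H92.FB

open Pool.Agent.N440.FO

/-- the number -/
noncomputable def XX (a : ℕ) (c : ℕ → ℤ) (n : ℕ → ℕ) : ℝ := ∑' k, (c k : ℝ) / (a : ℝ) ^ n k

theorem term_le {a : ℕ} (ha : 2 ≤ a) {c : ℕ → ℤ} {C : ℕ} (hC : ∀ k, |c k| ≤ C) {n : ℕ → ℕ}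
    (hn : StrictMono n) (k j : ℕ) :
    ‖(c (j + k) : ℝ) / (a : ℝ) ^ n (j + k)‖ ≤ C / (a : ℝ) ^ n k * (1 / 2) ^ j := by
  have ha2 : (2 : ℝ) ≤ a := by exact_mod_cast ha
  have h1 : n k + j ≤ n (j + k) := by
    induction j with
    | zero => simp
    | succ j ih =>
      have h2 : n (j + k) < n (j + 1 + k) := hn (by omega)
      omega
  have hcc : |(c (j + k) : ℝ)| ≤ C := by exact_mod_cast hC (j + k)
  rw [norm_div, norm_pow, Real.norm_eq_abs, Real.norm_of_nonneg (by positivity : (0 : ℝ) ≤ (a : ℝ))]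
  have h2 : (a : ℝ) ^ n k * 2 ^ j ≤ (a : ℝ) ^ n (j + k) := by
    calc (a : ℝ) ^ n k * 2 ^ j ≤ (a : ℝ) ^ n k * (a : ℝ) ^ j := by gcongr
      _ = (a : ℝ) ^ (n k + j) := by rw [pow_add]
      _ ≤ (a : ℝ) ^ n (j + k) := pow_le_pow_right₀ (by linarith) h1
  calc |(c (j + k) : ℝ)| / (a : ℝ) ^ n (j + k) ≤ C / ((a : ℝ) ^ n k * 2 ^ j) := by gcongr
    _ = C / (a : ℝ) ^ n k * (1 / 2) ^ j := by
      rw [one_div, inv_pow]; field_simp

theorem summable_XX {a : ℕ} (ha : 2 ≤ a) {c : ℕ → ℤ} {C : ℕ} (hC : ∀ k, |c k| ≤ C) {n : ℕ → ℕ}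
    (hn : StrictMono n) : Summable fun k => (c k : ℝ) / (a : ℝ) ^ n k := by
  refine Summable.of_norm_bounded (g := fun j => C / (a : ℝ) ^ n 0 * (1 / 2) ^ j)
    (summable_geometric_two.mul_left _) ?_
  intro j
  simpa using term_le ha hC hn 0 j

theorem tail_le {a : ℕ} (ha : 2 ≤ a) {c : ℕ → ℤ} {C : ℕ} (hC : ∀ k, |c k| ≤ C) {n : ℕ → ℕ}
    (hn : StrictMono n) (k : ℕ) :
    |∑' j, (c (j + k) : ℝ) / (a : ℝ) ^ n (j + k)| ≤ 2 * C / (a : ℝ) ^ n k := by
  have h1 : HasSum (fun j : ℕ => C / (a : ℝ) ^ n k * (1 / 2 : ℝ) ^ j) (C / (a : ℝ) ^ n k * 2) :=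
    (hasSum_geometric_two).mul_left _
  have h2 := tsum_of_norm_bounded h1 (term_le ha hC hn k)
  rw [Real.norm_eq_abs] at h2
  refine h2.trans (le_of_eq ?_)
  ring

theorem e_add_int (t : ℝ) (z : ℤ) : e (t + z) = e t := by rw [e_add, e_int, mul_one]

theorem norm_e_sub_one (t : ℝ) : ‖e t - 1‖ ≤ 2 * Real.pi * |t| := by
  have h1 : e t = Complex.exp (Complex.I * ((2 * Real.pi * t : ℝ) : ℂ)) := by
    unfold e; congr 1; push_cast; ring
  rw [h1]
  refine (Real.norm_exp_I_mul_ofReal_sub_one_le).trans (le_of_eq ?_)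
  rw [Real.norm_eq_abs, abs_mul, abs_of_pos (by positivity)]

/-- The orbit at the time `α (n k / β - r)`: the main term, an integer, and a small term. -/
theorem orbit {a b g α β : ℕ} (ha : 2 ≤ a) (hα : 0 < α) (hβ : 0 < β) (hb : 2 ≤ b)
    (hg : 0 < g) (hbg : b ^ α = a ^ β * g) {c : ℕ → ℤ} {C : ℕ} (hC : ∀ k, |c k| ≤ C) {n : ℕ → ℕ}
    (hn : StrictMono n) {k r v E : ℕ} (hE : b ^ α ≤ 2 ^ E)
    (h0 : β * r ≤ n k) (h1 : ∀ j < k, n j + β * (r + 1) ≤ n k) (h2 : (E + v) * n k ≤ n (k + 1)) (hk : 1 ≤ n k) :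
    ∃ (z : ℤ) (t : ℝ), (b : ℝ) ^ (α * (n k / β - r)) * XX a c n =
      yy a g β (c k) (n k) r + z + t ∧ |t| ≤ 2 * C / 2 ^ v := by
  have ha0 : (a : ℝ) ≠ 0 := by
    have : a ≠ 0 := by omega
    exact_mod_cast this
  have ha2 : (2 : ℝ) ≤ a := by exact_mod_cast ha
  have hsum := summable_XX ha hC hn
  -- the integer part
  have hbr : (b : ℝ) ^ (α * (n k / β - r)) = (a : ℝ) ^ (β * (n k / β - r)) * (g : ℝ) ^ (n k / β - r) := by
    have h3 : (b : ℝ) ^ α = (a : ℝ) ^ β * g := by exact_mod_cast hbg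
    rw [pow_mul, h3, mul_pow, pow_mul]
  have hint : ∃ z : ℤ, (b : ℝ) ^ (α * (n k / β - r)) * ∑ j ∈ range k, (c j : ℝ) / (a : ℝ) ^ n j = z := by
    refine ⟨(g : ℤ) ^ (n k / β - r) * ∑ j ∈ range k, c j * (a : ℤ) ^ (β * (n k / β - r) - n j), ?_⟩
    push_cast
    rw [hbr, Finset.mul_sum, Finset.mul_sum]
    refine Finset.sum_congr rfl fun j hj => ?_
    have h4 : n j ≤ β * (n k / β - r) := by
      have h5 := h1 j (Finset.mem_range.1 hj)
      have h6 := Nat.div_add_mod (n k) β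
      have h7 := Nat.mod_lt (n k) hβ
      rw [Nat.mul_sub]
      have : β * (r + 1) = β * r + β := by ring
      omega
    obtain ⟨i, hi⟩ := Nat.exists_eq_add_of_le h4
    rw [hi, Nat.add_sub_cancel_left, pow_add]
    field_simp
  obtain ⟨z, hz⟩ := hint
  -- the main term
  have hmain : (b : ℝ) ^ (α * (n k / β - r)) * ((c k : ℝ) / (a : ℝ) ^ n k) = yy a g β (c k) (n k) r := by
    unfold yy
    rw [hbr]
    rcases Nat.lt_or_ge (n k / β) r with hr | hr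
    · exfalso
      rw [Nat.div_lt_iff_lt_mul hβ, mul_comm] at hr
      omega
    · have h6 := Nat.div_add_mod (n k) β
      have h8 : n k = β * (n k / β - r) + (n k % β + β * r) := by
        have : β * (n k / β - r) + β * r = β * (n k / β) := by
          rw [← mul_add, Nat.sub_add_cancel hr]
        omega
      have h9 : (a : ℝ) ^ n k = (a : ℝ) ^ (β * (n k / β - r)) * (a : ℝ) ^ (n k % β + β * r) := by
        rw [← pow_add, ← h8]
      rw [h9]
      field_simp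
  refine ⟨z, (b : ℝ) ^ (α * (n k / β - r)) * ∑' j, (c (j + (k + 1)) : ℝ) / (a : ℝ) ^ n (j + (k + 1)), ?_, ?_⟩
  · unfold XX
    rw [← hsum.sum_add_tsum_nat_add (k + 1), Finset.sum_range_succ, mul_add, mul_add, hz, hmain]
    ring
  · rw [abs_mul, abs_of_nonneg (by positivity)]
    have h3 := tail_le ha hC hn (k + 1)
    have h4 : (b : ℝ) ^ (α * (n k / β - r)) ≤ 2 ^ (E * n k) := by
      have hb1 : (b : ℝ) ^ α ≤ 2 ^ E := by exact_mod_cast hE
      have hb2 : (1 : ℝ) ≤ (b : ℝ) ^ α := by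
        have : 1 ≤ b ^ α := Nat.one_le_pow _ _ (by omega)
        exact_mod_cast this
      calc (b : ℝ) ^ (α * (n k / β - r)) = ((b : ℝ) ^ α) ^ (n k / β - r) := pow_mul _ _ _
        _ ≤ ((b : ℝ) ^ α) ^ (n k) := pow_le_pow_right₀ hb2 ((Nat.sub_le _ _).trans (Nat.div_le_self _ _))
        _ ≤ (2 ^ E) ^ (n k) := by gcongr
        _ = 2 ^ (E * n k) := by rw [← pow_mul]
    have h5 : (2 : ℝ) ^ (E * n k) * 2 ^ v ≤ (a : ℝ) ^ n (k + 1) := by
      calc (2 : ℝ) ^ (E * n k) * 2 ^ v = 2 ^ (E * n k + v) := by rw [pow_add]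
        _ ≤ 2 ^ (n (k + 1)) := by
          refine pow_le_pow_right₀ (by norm_num) (le_trans ?_ h2)
          rw [add_mul]
          have : v ≤ v * n k := Nat.le_mul_of_pos_right v hk
          omega
        _ ≤ (a : ℝ) ^ n (k + 1) := by gcongr
    calc (b : ℝ) ^ (α * (n k / β - r)) * |∑' j, (c (j + (k + 1)) : ℝ) / (a : ℝ) ^ n (j + (k + 1))| ≤
          2 ^ (E * n k) * (2 * C / (a : ℝ) ^ n (k + 1)) := by gcongr
      _ ≤ 2 ^ (E * n k) * (2 * C / ((2 : ℝ) ^ (E * n k) * 2 ^ v)) := by gcongr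
      _ = 2 * C / 2 ^ v := by field_simp

end Pool.Agent.H92.FB
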