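import Pool.Agent.H92.FB.Gaps
import Pool.Agent.N440.FO.Arith2

/-! # Dense orbits, random exponents, bases divisible by all prime factors of `a` -/

set_option autoImplicit false

open Finset MeasureTheory ProbabilityTheory Filter Topology
open Pool.Agent.H1R3.Det (Circ)

namespace Pool.Agent.H92.FB

open Pool.Agent.N440.FO

variable {Ω : Type*} [MeasurableSpace Ω] {μ : Measure Ω} [IsProbabilityMeasure μ]

theorem measurable_XX {a : ℕ} (ha : 2 ≤ a) {c : ℕ → ℤ} {C : ℕ} (hC : ∀ k, |c k| ≤ C)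
    {N : ℕ → Ω → ℕ} (hN : ∀ k, Measurable (N k)) (hmono : ∀ ω, StrictMono fun k => N k ω) :
    Measurable fun ω => XX a c fun k => N k ω := by
  refine measurable_of_tendsto_metrizable (f := fun L ω => ∑ k ∈ range L, (c k : ℝ) / (a : ℝ) ^ N k ω)
    (fun L => ?_) ?_
  · refine Finset.measurable_sum _ fun k _ => ?_
    exact (measurable_from_nat (f := fun n : ℕ => (c k : ℝ) / (a : ℝ) ^ n)).comp (hN k)
  · rw [tendsto_pi_nhds]
    intro ω
    exact (summable_XX ha hC (hmono ω)).hasSum.tendsto_sum_nat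

/-- eventually almost surely, hence with a probability tending to one -/
theorem tendsto_compl {G : ℕ → Set Ω} (hG : ∀ k, MeasurableSet (G k))
    (h : ∀ᵐ ω ∂μ, ∀ᶠ k in atTop, ω ∈ G k) : Tendsto (fun k => μ.real (G k)ᶜ) atTop (𝓝 0) := by
  have h0 : (0 : ℝ) = ∫ _ω : Ω, (0 : ℝ) ∂μ := by simp
  have h1 : ∀ k, μ.real (G k)ᶜ = ∫ ω, (G k)ᶜ.indicator (fun _ => (1 : ℝ)) ω ∂μ := by
    intro k
    rw [integral_indicator (hG k).compl, setIntegral_const, smul_eq_mul, mul_one]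
  simp_rw [h1]
  rw [h0]
  refine tendsto_integral_of_dominated_convergence (fun _ => (1 : ℝ)) ?_ (integrable_const _) ?_ ?_
  · intro k
    exact ((measurable_const).indicator (hG k).compl).aestronglyMeasurable
  · intro k
    refine Filter.Eventually.of_forall fun ω => ?_
    by_cases hω : ω ∈ (G k)ᶜ
    · rw [Set.indicator_of_mem hω]; simp
    · rw [Set.indicator_of_notMem hω]; simp
  · filter_upwards [h] with ω hω
    refine tendsto_const_nhds.congr' ?_
    filter_upwards [hω] with k hk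
    rw [Set.indicator_of_notMem (Set.notMem_compl_iff.2 hk)]

theorem hmom_gaps {a b : ℕ} (ha : 2 ≤ a) (hb : 2 ≤ b)
    (hab : ∀ k l : ℕ, 0 < k → 0 < l → a ^ k ≠ b ^ l) (hdiv : ∀ p : ℕ, p.Prime → p ∣ a → p ∣ b)
    {c : ℕ → ℤ} (hc0 : ∀ k, c k ≠ 0) {C : ℕ} (hC : ∀ k, |c k| ≤ C)
    {N : ℕ → Ω → ℕ} (hN : ∀ k, Measurable (N k)) (hE : Equi μ N)
    (hmono : ∀ ω, StrictMono fun k => N k ω)
    (hratio : ∀ᵐ ω ∂μ, Tendsto (fun k => (N (k + 1) ω : ℝ) / N k ω) atTop atTop)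
    (H : ℕ) {η : ℝ} (hη : 0 < η) :
    ∃ R : ℕ, 0 < R ∧ ∃ s : ℕ → Ω → ℕ, (∀ r, Measurable (s r)) ∧ ∀ h : ℤ, h ≠ 0 → |h| ≤ H →
      ∫ ω, ‖∑ r ∈ range R, e (h * ((b : ℝ) ^ (s r ω) * XX a c (fun k => N k ω)))‖ ^ 2 ∂μ ≤
        (R : ℝ) ^ 2 * η := by
  classical
  obtain ⟨p, α, β, g, hp, hpa, hα, hβ, hg, hpg, hbg⟩ := exists_g ha hb hab hdiv
  have hlarge : ∀ T : ℕ, ∀ᶠ k in atTop, ∀ ω, T ≤ N k ω := by
    intro T
    filter_upwards [eventually_ge_atTop T] with k hk ω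
    exact hk.trans ((hmono ω).le_apply)
  obtain ⟨R, hR0, hwin⟩ := window hN hE hlarge hp hpa (by omega : 0 < a) hg hpg hβ hc0 hC H
    (η := η / 8) (by positivity)
  set θ : ℝ := min 1 (η / 8) with hθ
  have hθ0 : 0 < θ := lt_min one_pos (by positivity)
  obtain ⟨v, hv⟩ : ∃ v : ℕ, 2 * Real.pi * (H * (2 * C / 2 ^ v)) ≤ θ := by
    have h1 : Tendsto (fun v : ℕ => 2 * Real.pi * (H * (2 * C / (2 : ℝ) ^ v))) atTop (𝓝 0) := by
      have h2 : Tendsto (fun v : ℕ => (2 * Real.pi * H * (2 * C)) * (1 / 2 : ℝ) ^ v) atTop (𝓝 0) := by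
        have := (tendsto_pow_atTop_nhds_zero_of_lt_one (by norm_num : (0 : ℝ) ≤ 1 / 2)
          (by norm_num)).const_mul (2 * Real.pi * H * (2 * C))
        simpa using this
      refine h2.congr fun v => ?_
      rw [one_div, inv_pow]
      field_simp
    exact (h1.eventually_le_const hθ0).exists
  set E : ℕ := b ^ α with hEdef
  have hE2 : b ^ α ≤ 2 ^ E := Nat.lt_two_pow_self.le
  set G : ℕ → Set Ω := fun k => {ω | (E + v) * N k ω ≤ N (k + 1) ω ∧
    ∀ j < k, N j ω + β * (R + 1) ≤ N k ω} with hG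
  have hGm : ∀ k, MeasurableSet (G k) := by
    intro k
    refine MeasurableSet.inter ?_ ?_
    · exact measurableSet_le ((hN k).const_mul _) (hN (k + 1))
    · have : {ω | ∀ j < k, N j ω + β * (R + 1) ≤ N k ω} =
          ⋂ j : ℕ, ⋂ _h : j < k, {ω | N j ω + β * (R + 1) ≤ N k ω} := by
        ext ω; simp
      show MeasurableSet {ω | ∀ j < k, N j ω + β * (R + 1) ≤ N k ω}
      rw [this]
      exact MeasurableSet.iInter fun j => MeasurableSet.iInter fun _ =>
        measurableSet_le ((hN j).add_const _) (hN k)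
  have hGae : ∀ᵐ ω ∂μ, ∀ᶠ k in atTop, ω ∈ G k := by
    filter_upwards [hratio] with ω hω
    have h1 := hω.eventually_ge_atTop (((E + v : ℕ) : ℝ))
    have h2 : ∀ᶠ k in atTop, (2 : ℝ) ≤ (N (k + 1) ω : ℝ) / N k ω := hω.eventually_ge_atTop 2
    obtain ⟨k₂, hk₂⟩ := eventually_atTop.1 h2
    filter_upwards [h1, eventually_ge_atTop (max (k₂ + 1) (β * (R + 1) + 1))] with k hk hk'
    have hk3 : k₂ + 1 ≤ k := (le_max_left _ _).trans hk'
    have hk4 : β * (R + 1) + 1 ≤ k := (le_max_right _ _).trans hk'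
    have hNk : k ≤ N k ω := (hmono ω).le_apply
    have hNpos : (0 : ℝ) < N k ω := by
      have : 0 < N k ω := by omega
      exact_mod_cast this
    refine ⟨?_, ?_⟩
    · rw [le_div_iff₀ hNpos] at hk
      exact_mod_cast hk
    · obtain ⟨k', rfl⟩ : ∃ k', k = k' + 1 := ⟨k - 1, by omega⟩
      have hk5 := hk₂ k' (by omega)
      have hNk' : k' ≤ N k' ω := (hmono ω).le_apply
      have hNpos' : (0 : ℝ) < N k' ω := by
        have : 0 < N k' ω := by
          have : 0 < β * (R + 1) := Nat.mul_pos hβ (by omega)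
          omega
        exact_mod_cast this
      rw [le_div_iff₀ hNpos'] at hk5
      have hk6 : 2 * N k' ω ≤ N (k' + 1) ω := by exact_mod_cast hk5
      intro j hj
      have hk7 : N j ω ≤ N k' ω := (hmono ω).monotone (by omega)
      omega
  have hprob := tendsto_compl hGm hGae
  have hex : ∃ k : ℕ, β * R ≤ k ∧ 1 ≤ k ∧ (∀ h : ℤ, h ≠ 0 → |h| ≤ H →
      ∫ ω, ‖∑ r ∈ range R, e (h * yy a g β (c k) (N k ω) r)‖ ^ 2 ∂μ ≤ (R : ℝ) ^ 2 * (η / 8)) ∧
      μ.real (G k)ᶜ ≤ η / 4 := by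
    have h1 := (eventually_ge_atTop (max (β * R) 1)).and
      (hwin.and (hprob.eventually_le_const (u := η / 4) (by positivity)))
    obtain ⟨k, hk1, hk2, hk3⟩ := h1.exists
    exact ⟨k, (le_max_left _ _).trans hk1, (le_max_right _ _).trans hk1, hk2, hk3⟩
  obtain ⟨k, hk1, hk2, hk3, hk4⟩ := hex
  have hXm := measurable_XX ha hC hN hmono
  set X : Ω → ℝ := fun ω => XX a c fun k => N k ω with hX
  have hsm : ∀ r : ℕ, Measurable fun ω => α * (N k ω / β - r) := fun r =>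
    (measurable_from_nat (f := fun n : ℕ => α * (n / β - r))).comp (hN k)
  refine ⟨R, hR0, fun r ω => α * (N k ω / β - r), hsm, fun h hh hhH => ?_⟩
  have hR1 : (0 : ℝ) < R := by exact_mod_cast hR0
  have hpt : ∀ ω, ‖∑ r ∈ range R, e (h * ((b : ℝ) ^ (α * (N k ω / β - r)) * X ω))‖ ^ 2 ≤
      2 * ‖∑ r ∈ range R, e (h * yy a g β (c k) (N k ω) r)‖ ^ 2 + 2 * ((R : ℝ) ^ 2 * θ ^ 2) +
        (R : ℝ) ^ 2 * (G k)ᶜ.indicator (fun _ => (1 : ℝ)) ω := by
    intro ω
    by_cases hω : ω ∈ G k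
    · rw [Set.indicator_of_notMem (Set.notMem_compl_iff.2 hω), mul_zero, add_zero]
      have hNk : k ≤ N k ω := (hmono ω).le_apply
      have hdiff : ∀ r ∈ range R, ‖e (h * ((b : ℝ) ^ (α * (N k ω / β - r)) * X ω)) -
          e (h * yy a g β (c k) (N k ω) r)‖ ≤ θ := by
        intro r hr
        have hrR := Finset.mem_range.1 hr
        have hrβ : β * r ≤ β * R := Nat.mul_le_mul_left _ hrR.le
        obtain ⟨z, t, h1, h2⟩ := orbit (n := fun k => N k ω) ha hα hβ hb (by omega : 0 < g) hbg hC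
          (hmono ω) hE2 (k := k) (r := r) (v := v) (by omega)
          (fun j hj => by
            have h3 := hω.2 j hj
            have h4 : β * (r + 1) ≤ β * (R + 1) := Nat.mul_le_mul_left _ (by omega)
            show N j ω + β * (r + 1) ≤ N k ω
            omega) hω.1 (by omega)
        have h3 : (h : ℝ) * ((b : ℝ) ^ (α * (N k ω / β - r)) * X ω) =
            h * yy a g β (c k) (N k ω) r + h * t + ((h * z : ℤ) : ℝ) := by
          rw [hX]
          dsimp only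
          rw [h1]
          push_cast
          ring
        rw [h3, e_add_int, e_add]
        have h4 : e (h * yy a g β (c k) (N k ω) r) * e (h * t) - e (h * yy a g β (c k) (N k ω) r) =
            e (h * yy a g β (c k) (N k ω) r) * (e (h * t) - 1) := by ring
        rw [h4, norm_mul, norm_e, one_mul]
        have hhr : |(h : ℝ)| ≤ H := by exact_mod_cast hhH
        calc ‖e (h * t) - 1‖ ≤ 2 * Real.pi * |(h : ℝ) * t| := norm_e_sub_one _
          _ = 2 * Real.pi * (|(h : ℝ)| * |t|) := by rw [abs_mul]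
          _ ≤ 2 * Real.pi * (H * (2 * C / 2 ^ v)) := by gcongr
          _ ≤ θ := hv
      have hsum : ‖∑ r ∈ range R, e (h * ((b : ℝ) ^ (α * (N k ω / β - r)) * X ω))‖ ≤
          ‖∑ r ∈ range R, e (h * yy a g β (c k) (N k ω) r)‖ + R * θ := by
        have h1 : ∑ r ∈ range R, e (h * ((b : ℝ) ^ (α * (N k ω / β - r)) * X ω)) =
            ∑ r ∈ range R, e (h * yy a g β (c k) (N k ω) r) +
            ∑ r ∈ range R, (e (h * ((b : ℝ) ^ (α * (N k ω / β - r)) * X ω)) -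
              e (h * yy a g β (c k) (N k ω) r)) := by
          rw [← Finset.sum_add_distrib]
          exact Finset.sum_congr rfl fun r _ => by ring
        rw [h1]
        refine (norm_add_le _ _).trans ?_
        gcongr
        calc _ ≤ ∑ r ∈ range R, ‖e (h * ((b : ℝ) ^ (α * (N k ω / β - r)) * X ω)) -
              e (h * yy a g β (c k) (N k ω) r)‖ := norm_sum_le _ _
          _ ≤ ∑ _r ∈ range R, θ := Finset.sum_le_sum hdiff
          _ = R * θ := by simp
      calc _ ≤ (‖∑ r ∈ range R, e (h * yy a g β (c k) (N k ω) r)‖ + R * θ) ^ 2 := by gcongr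
        _ ≤ _ := by nlinarith [sq_nonneg (‖∑ r ∈ range R, e (h * yy a g β (c k) (N k ω) r)‖ - R * θ)]
    · rw [Set.indicator_of_mem (show ω ∈ (G k)ᶜ from hω), mul_one]
      have h1 : ‖∑ r ∈ range R, e (h * ((b : ℝ) ^ (α * (N k ω / β - r)) * X ω))‖ ≤ R := by
        calc _ ≤ ∑ r ∈ range R, ‖e (h * ((b : ℝ) ^ (α * (N k ω / β - r)) * X ω))‖ := norm_sum_le _ _
          _ = R := by simp [norm_e]
      have h2 : ‖∑ r ∈ range R, e (h * ((b : ℝ) ^ (α * (N k ω / β - r)) * X ω))‖ ^ 2 ≤ (R : ℝ) ^ 2 := by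
        gcongr
      have h3 : 0 ≤ 2 * ‖∑ r ∈ range R, e (h * yy a g β (c k) (N k ω) r)‖ ^ 2 +
        2 * ((R : ℝ) ^ 2 * θ ^ 2) := by positivity
      linarith
  have hbound : ∀ (f : Ω → ℂ), Measurable f → (∀ ω, ‖f ω‖ ≤ R) → Integrable (fun ω => ‖f ω‖ ^ 2) μ := by
    intro f hf hfR
    refine Integrable.of_bound (C := (R : ℝ) ^ 2) (hf.norm.pow_const 2).aestronglyMeasurable ?_
    refine Filter.Eventually.of_forall fun ω => ?_
    rw [Real.norm_of_nonneg (by positivity)]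
    have := hfR ω
    gcongr
  have i1 : Integrable (fun ω => ‖∑ r ∈ range R, e (h * ((b : ℝ) ^ (α * (N k ω / β - r)) * X ω))‖ ^ 2) μ := by
    refine hbound _ ?_ fun ω => ?_
    · refine Finset.measurable_sum _ fun r _ => ?_
      refine measurable_e.comp (Measurable.const_mul (Measurable.mul ?_ hXm) _)
      exact (measurable_from_nat (f := fun n : ℕ => (b : ℝ) ^ n)).comp (hsm r)
    · calc _ ≤ ∑ r ∈ range R, ‖e (h * ((b : ℝ) ^ (α * (N k ω / β - r)) * X ω))‖ := norm_sum_le _ _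
        _ = R := by simp [norm_e]
  have i2 : Integrable (fun ω => ‖∑ r ∈ range R, e (h * yy a g β (c k) (N k ω) r)‖ ^ 2) μ := by
    refine hbound _ ?_ fun ω => ?_
    · refine Finset.measurable_sum _ fun r _ => ?_
      refine measurable_e.comp (Measurable.const_mul ?_ _)
      exact (measurable_from_nat (f := fun n : ℕ => yy a g β (c k) n r)).comp (hN k)
    · calc _ ≤ ∑ r ∈ range R, ‖e (h * yy a g β (c k) (N k ω) r)‖ := norm_sum_le _ _
        _ = R := by simp [norm_e]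
  have i3 : Integrable ((G k)ᶜ.indicator (fun _ => (1 : ℝ))) μ :=
    (integrable_const _).indicator (hGm k).compl
  have i4 : Integrable (fun ω => 2 * ‖∑ r ∈ range R, e (h * yy a g β (c k) (N k ω) r)‖ ^ 2 +
      2 * ((R : ℝ) ^ 2 * θ ^ 2)) μ := (i2.const_mul 2).add (integrable_const _)
  have hθ2 : θ ^ 2 ≤ η / 8 := by
    have h1 : θ ≤ 1 := min_le_left _ _
    have h2 : θ ≤ η / 8 := min_le_right _ _
    nlinarith
  calc ∫ ω, ‖∑ r ∈ range R, e (h * ((b : ℝ) ^ (α * (N k ω / β - r)) * X ω))‖ ^ 2 ∂μ ≤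
        ∫ ω, (2 * ‖∑ r ∈ range R, e (h * yy a g β (c k) (N k ω) r)‖ ^ 2 + 2 * ((R : ℝ) ^ 2 * θ ^ 2) +
        (R : ℝ) ^ 2 * (G k)ᶜ.indicator (fun _ => (1 : ℝ)) ω) ∂μ :=
        integral_mono i1 (((i2.const_mul 2).add (integrable_const _)).add (i3.const_mul _)) hpt
    _ = 2 * ∫ ω, ‖∑ r ∈ range R, e (h * yy a g β (c k) (N k ω) r)‖ ^ 2 ∂μ +
        2 * ((R : ℝ) ^ 2 * θ ^ 2) + (R : ℝ) ^ 2 * μ.real (G k)ᶜ := by
        have e1 : ∫ ω, (R : ℝ) ^ 2 * (G k)ᶜ.indicator (fun _ => (1 : ℝ)) ω ∂μ =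
            (R : ℝ) ^ 2 * μ.real (G k)ᶜ := by
          rw [integral_const_mul, integral_indicator (hGm k).compl, setIntegral_const]
          simp
        have e2 : ∫ _ω : Ω, 2 * ((R : ℝ) ^ 2 * θ ^ 2) ∂μ = 2 * ((R : ℝ) ^ 2 * θ ^ 2) := by simp
        rw [integral_add i4 (i3.const_mul _), integral_add (i2.const_mul 2) (integrable_const _), e1, e2,
          integral_const_mul]
    _ ≤ 2 * ((R : ℝ) ^ 2 * (η / 8)) + 2 * ((R : ℝ) ^ 2 * (η / 8)) + (R : ℝ) ^ 2 * (η / 4) := by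
        have := hk3 h hh hhH
        gcongr
    _ ≤ (R : ℝ) ^ 2 * η := by nlinarith [sq_nonneg (R : ℝ)]

end Pool.Agent.H92.FB
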