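import Pool.Agent.H92.FB.Gaps2

/-! # Random exponents: bases not divisible by all prime factors of `a` -/

set_option autoImplicit false

open Finset MeasureTheory ProbabilityTheory Filter Topology
open Pool.Agent.H1R3.Det (Circ)

namespace Pool.Agent.H92.FB

open Pool.Agent.N440.FO

variable {Ω : Type*} [MeasurableSpace Ω] {μ : Measure Ω} [IsProbabilityMeasure μ]

theorem integral_e_sum {Y : ℕ → Ω → ℝ} (hY : ∀ k, Measurable (Y k)) (hind : iIndepFun Y μ)
    (F : Finset ℕ) (θ : ℝ) :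
    ∫ ω, e (θ * ∑ k ∈ F, Y k ω) ∂μ = ∏ k ∈ F, ∫ ω, e (θ * Y k ω) ∂μ := by
  have h1 : ∀ ω, e (θ * ∑ k ∈ F, Y k ω) = ∏ n : F, (fun x : ℝ => e (θ * x)) (Y n ω) := by
    intro ω
    rw [Finset.mul_sum, e_sum]
    exact (Finset.prod_coe_sort F (fun n => e (θ * Y n ω))).symm
  simp_rw [h1]
  have hX : iIndepFun (fun n : F => Y n) μ := hind.precomp Subtype.val_injective
  have h2 := hX.integral_fun_prod_comp (f := fun _ : F => fun x : ℝ => e (θ * x))
    (fun n => (hY n).aemeasurable)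
    (fun n => (measurable_e.comp (measurable_id.const_mul θ)).aestronglyMeasurable)
  rw [h2]
  exact Finset.prod_coe_sort F (fun n => ∫ ω, e (θ * Y n ω) ∂μ)

theorem norm_integral_e_le (f : Ω → ℝ) : ‖∫ ω, e (f ω) ∂μ‖ ≤ 1 := by
  calc _ ≤ 1 * μ.real Set.univ :=
        norm_integral_le_of_norm_le_const (Filter.Eventually.of_forall fun ω => (norm_e _).le)
    _ = 1 := by simp

theorem char_le {Y : ℕ → Ω → ℝ} (hY : ∀ k, Measurable (Y k)) (hind : iIndepFun Y μ) {X : Ω → ℝ}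
    (hlim : ∀ᵐ ω ∂μ, Tendsto (fun n => ∑ k ∈ range n, Y k ω) atTop (𝓝 (X ω))) (F : Finset ℕ) (θ : ℝ) :
    ‖∫ ω, e (θ * X ω) ∂μ‖ ≤ ‖∫ ω, e (θ * ∑ k ∈ F, Y k ω) ∂μ‖ := by
  have h1 : Tendsto (fun L => ∫ ω, e (θ * ∑ k ∈ range L, Y k ω) ∂μ) atTop
      (𝓝 (∫ ω, e (θ * X ω) ∂μ)) := by
    refine tendsto_integral_of_dominated_convergence (fun _ => (1 : ℝ)) ?_ (integrable_const _) ?_ ?_
    · intro L
      exact (measurable_e.comp ((Finset.measurable_sum _ fun k _ => hY k).const_mul θ)).aestronglyMeasurable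
    · intro L
      exact Filter.Eventually.of_forall fun ω => (norm_e _).le
    · filter_upwards [hlim] with ω hω
      exact (continuous_e.tendsto _).comp (hω.const_mul θ)
  refine le_of_tendsto h1.norm ?_
  obtain ⟨L₀, hL₀⟩ : ∃ L₀, F ⊆ range L₀ := by
    refine ⟨F.sup id + 1, fun i hi => ?_⟩
    rw [Finset.mem_range]
    have := Finset.le_sup (f := id) hi
    simp only [id] at this
    omega
  filter_upwards [eventually_ge_atTop L₀] with L hL
  rw [integral_e_sum hY hind, integral_e_sum hY hind]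
  have hsub : F ⊆ range L := hL₀.trans (Finset.range_subset_range.2 hL)
  rw [← Finset.prod_sdiff hsub, norm_mul]
  calc _ ≤ 1 * ‖∏ n ∈ F, ∫ ω, e (θ * Y n ω) ∂μ‖ := by
        refine mul_le_mul_of_nonneg_right ?_ (norm_nonneg _)
        rw [norm_prod]
        exact Finset.prod_le_one (fun _ _ => norm_nonneg _) (fun n _ => norm_integral_e_le _)
    _ = _ := one_mul _

/-- the largest exponent is determined -/
theorem top {p a b L : ℕ} (hp : p.Prime) (hpa : p ∣ a) (ha : 0 < a) (hpb : ¬ p ∣ b) (hb : 2 ≤ b)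
    {d : ℕ → ℤ} (hd : ∀ i, ¬ (p : ℤ) ^ L ∣ d i) {n n' : ℕ → ℕ} (hn0 : L ≤ n 0)
    (hn : ∀ i, n i + L ≤ n (i + 1)) (hn' : ∀ i, n' i + L ≤ n' (i + 1)) {l j : ℕ} {z : ℤ}
    (h : ∑ i ∈ range (l + 1), (d i : ℝ) / (a : ℝ) ^ n i - ∑ i ∈ range (l + 1), (d i : ℝ) / (a : ℝ) ^ n' i =
      z / (b : ℝ) ^ j) : n l ≤ n' l := by
  by_contra hlt
  rw [not_le] at hlt
  have ha0 : (a : ℝ) ≠ 0 := by exact_mod_cast ha.ne'
  have hb0 : (b : ℝ) ≠ 0 := by
    have : b ≠ 0 := by omega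
    exact_mod_cast this
  have hmon : Monotone n := monotone_nat_of_le_succ fun i => by have := hn i; omega
  have hmon' : Monotone n' := monotone_nat_of_le_succ fun i => by have := hn' i; omega
  have hgap : ∀ i < l, n i + L ≤ n l := fun i hi => (hn i).trans (hmon (by omega))
  have hgap' : ∀ i < l, n' i + L ≤ n' l := fun i hi => (hn' i).trans (hmon' (by omega))
  set S1 : ℤ := ∑ i ∈ range l, d i * (a : ℤ) ^ (n l - n i) with hS1
  set S2 : ℤ := ∑ i ∈ range l, d i * (a : ℤ) ^ (n l - n' i) with hS2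
  set ee : ℕ := n l - n' l with hee
  have hee0 : 0 < ee := by omega
  have e1 : (a : ℝ) ^ n l * ∑ i ∈ range (l + 1), (d i : ℝ) / (a : ℝ) ^ n i = S1 + d l := by
    rw [Finset.sum_range_succ, mul_add, Finset.mul_sum, hS1]
    push_cast
    congr 1
    · refine Finset.sum_congr rfl fun i hi => ?_
      have h1 := hgap i (Finset.mem_range.1 hi)
      obtain ⟨s, hs⟩ := Nat.exists_eq_add_of_le (show n i ≤ n l by omega)
      rw [hs, Nat.add_sub_cancel_left, pow_add]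
      field_simp
    · field_simp
  have e2 : (a : ℝ) ^ n l * ∑ i ∈ range (l + 1), (d i : ℝ) / (a : ℝ) ^ n' i = S2 + d l * (a : ℝ) ^ ee := by
    rw [Finset.sum_range_succ, mul_add, Finset.mul_sum, hS2]
    push_cast
    congr 1
    · refine Finset.sum_congr rfl fun i hi => ?_
      have h1 := hgap' i (Finset.mem_range.1 hi)
      obtain ⟨s, hs⟩ := Nat.exists_eq_add_of_le (show n' i ≤ n l by omega)
      rw [hs, Nat.add_sub_cancel_left, pow_add]
      field_simp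
    · have h2 : n l = n' l + ee := by omega
      rw [h2, pow_add]
      field_simp
  have e3 : (b : ℤ) ^ j * (S1 + d l - (S2 + d l * (a : ℤ) ^ ee)) = z * (a : ℤ) ^ n l := by
    have h3 : (b : ℝ) ^ j * (S1 + d l - (S2 + d l * (a : ℝ) ^ ee)) = z * (a : ℝ) ^ n l := by
      rw [← e1, ← e2, ← mul_sub, h]
      field_simp
    exact_mod_cast h3
  have hpz := Nat.prime_iff_prime_int.1 hp
  have hpaz : (p : ℤ) ∣ (a : ℤ) := by exact_mod_cast hpa
  have hpow : ∀ s : ℕ, L ≤ s → (p : ℤ) ^ L ∣ (a : ℤ) ^ s := fun s hs =>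
    (pow_dvd_pow_of_dvd hpaz L).trans (pow_dvd_pow _ hs)
  have d1 : (p : ℤ) ^ L ∣ S1 := Finset.dvd_sum fun i hi => Dvd.dvd.mul_left (hpow _ (by
    have := hgap i (Finset.mem_range.1 hi); omega)) _
  have d2 : (p : ℤ) ^ L ∣ S2 := Finset.dvd_sum fun i hi => Dvd.dvd.mul_left (hpow _ (by
    have := hgap' i (Finset.mem_range.1 hi); omega)) _
  have d3 : (p : ℤ) ^ L ∣ (b : ℤ) ^ j * (S1 + d l - (S2 + d l * (a : ℤ) ^ ee)) := by
    rw [e3]
    exact Dvd.dvd.mul_left (hpow _ (hn0.trans (hmon (Nat.zero_le l)))) _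
  have hcop : IsCoprime ((p : ℤ) ^ L) ((b : ℤ) ^ j) := by
    refine IsCoprime.pow ?_
    rw [Nat.isCoprime_iff_coprime]
    exact (Nat.Prime.coprime_iff_not_dvd hp).2 hpb
  have d4 := hcop.dvd_of_dvd_mul_left d3
  have d5 : (p : ℤ) ^ L ∣ d l * (1 - (a : ℤ) ^ ee) := by
    have h4 : d l * (1 - (a : ℤ) ^ ee) = (S1 + d l - (S2 + d l * (a : ℤ) ^ ee)) - (S1 - S2) := by ring
    rw [h4]
    exact dvd_sub d4 (dvd_sub d1 d2)
  have hcop2 : IsCoprime ((p : ℤ) ^ L) (1 - (a : ℤ) ^ ee) := by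
    refine IsCoprime.pow_left ?_
    obtain ⟨w, hw⟩ := hpaz.trans (dvd_pow_self (a : ℤ) hee0.ne')
    exact ⟨w, 1, by rw [hw]; ring⟩
  exact hd l (hcop2.dvd_of_dvd_mul_right d5)

theorem uniq {p a b L : ℕ} (hp : p.Prime) (hpa : p ∣ a) (ha : 0 < a) (hpb : ¬ p ∣ b) (hb : 2 ≤ b)
    {d : ℕ → ℤ} (hd : ∀ i, ¬ (p : ℤ) ^ L ∣ d i) {n n' : ℕ → ℕ} (hn0 : L ≤ n 0) (hn0' : L ≤ n' 0)
    (hn : ∀ i, n i + L ≤ n (i + 1)) (hn' : ∀ i, n' i + L ≤ n' (i + 1)) (l : ℕ) : ∀ (j : ℕ) (z : ℤ),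
    ∑ i ∈ range l, (d i : ℝ) / (a : ℝ) ^ n i - ∑ i ∈ range l, (d i : ℝ) / (a : ℝ) ^ n' i =
      z / (b : ℝ) ^ j → ∀ i < l, n i = n' i := by
  induction l with
  | zero => intro j z _ i hi; omega
  | succ l ih =>
    intro j z h
    have h1 := top hp hpa ha hpb hb hd hn0 hn hn' h
    have h2 : n' l ≤ n l := by
      refine top hp hpa ha hpb hb hd hn0' hn' hn (l := l) (j := j) (z := -z) ?_
      push_cast
      rw [neg_div, ← h]
      ring
    have h3 : n l = n' l := le_antisymm h1 h2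
    have h4 := ih j z (by
      rw [Finset.sum_range_succ, Finset.sum_range_succ, h3] at h
      rw [← h]
      ring)
    intro i hi
    rcases Nat.lt_or_ge i l with h5 | h5
    · exact h4 i h5
    · have : i = l := by omega
      rw [this]; exact h3

theorem adic_sum {a : ℕ} (ha : 0 < a) {ι : Type*} (s : Finset ι) {x : ι → ℝ}
    (h : ∀ i ∈ s, ∃ (n : ℕ) (κ : ℤ), x i = κ / (a : ℝ) ^ n) :
    ∃ (n : ℕ) (κ : ℤ), ∑ i ∈ s, x i = κ / (a : ℝ) ^ n := by
  classical
  have ha0 : (a : ℝ) ≠ 0 := by exact_mod_cast ha.ne'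
  induction s using Finset.induction_on with
  | empty => exact ⟨0, 0, by simp⟩
  | insert i s hi ih =>
    obtain ⟨n₁, κ₁, h1⟩ := h i (Finset.mem_insert_self _ _)
    obtain ⟨n₂, κ₂, h2⟩ := ih fun j hj => h j (Finset.mem_insert_of_mem hj)
    refine ⟨n₁ + n₂, κ₁ * (a : ℤ) ^ n₂ + κ₂ * (a : ℤ) ^ n₁, ?_⟩
    rw [Finset.sum_insert hi, h1, h2, pow_add]
    push_cast
    field_simp

theorem spread_gaps {a b p : ℕ} (ha : 2 ≤ a) (hb : 2 ≤ b) (hp : p.Prime) (hpa : p ∣ a) (hpb : ¬ p ∣ b)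
    {c : ℕ → ℤ} (hc0 : ∀ k, c k ≠ 0) {C : ℕ} (hC : ∀ k, |c k| ≤ C)
    {N : ℕ → Ω → ℕ} (hN : ∀ k, Measurable (N k)) (hind : iIndepFun N μ) (hE : Equi μ N)
    (hmono : ∀ ω, StrictMono fun k => N k ω) : SpreadC μ a b fun ω => XX a c fun k => N k ω := by
  classical
  intro η hη
  obtain ⟨l, hl⟩ := exists_pow_lt_of_lt_one hη (by norm_num : (3 / 4 : ℝ) < 1)
  set L : ℕ := C + 1 with hL
  have hd : ∀ k, ¬ (p : ℤ) ^ L ∣ c k := by
    intro k hdv
    have h1 := Int.le_of_dvd (abs_pos.2 (hc0 k)) ((dvd_abs _ _).2 hdv)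
    have h2 : (L : ℤ) < (p : ℤ) ^ L := by exact_mod_cast Nat.lt_pow_self hp.one_lt
    have h3 := hC k
    push_cast at h2
    omega
  have hev : ∀ᶠ k in atTop, ∀ r < 2, μ.real {ω | N k ω % 2 = r} ≤ 3 / 4 := by
    have h1 : ∀ r ∈ range 2, ∀ᶠ k in atTop, μ.real {ω | N k ω % 2 = r} ≤ 3 / 4 := by
      intro r hr
      exact (hE 2 r (Finset.mem_range.1 hr)).eventually_le_const (by norm_num)
    have h2 := (Finset.eventually_all (range 2)).2 h1
    filter_upwards [h2] with k hk r hr using hk r (Finset.mem_range.2 hr)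
  obtain ⟨m₀, hm₀⟩ := eventually_atTop.1 hev
  set m : ℕ := max m₀ L with hm
  set idx : ℕ → ℕ := fun i => m + i * L with hidx
  have hLpos : 0 < L := by omega
  have hinj : Function.Injective idx := by
    intro i i' h
    have h1 : i * L = i' * L := by simpa [hidx] using h
    exact Nat.eq_of_mul_eq_mul_right hLpos h1
  set Y : ℕ → Ω → ℝ := fun k ω => (c k : ℝ) / (a : ℝ) ^ N k ω with hY
  have hfm : ∀ k, Measurable fun n : ℕ => (c k : ℝ) / (a : ℝ) ^ n := fun k => measurable_from_nat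
  have hYm : ∀ k, Measurable (Y k) := fun k => (hfm k).comp (hN k)
  have hYi : iIndepFun Y μ := hind.comp (fun k n => (c k : ℝ) / (a : ℝ) ^ n) hfm
  set F : Finset ℕ := (range l).image idx with hF
  have hsumF : ∀ ω, ∑ k ∈ F, Y k ω = ∑ i ∈ range l, (c (idx i) : ℝ) / (a : ℝ) ^ N (idx i) ω := by
    intro ω
    rw [hF, Finset.sum_image fun i _ i' _ h => hinj h]
  refine ⟨fun ω => ∑ k ∈ F, Y k ω, Finset.measurable_sum _ fun k _ => hYm k, fun θ => ?_, ?_, fun v => ?_⟩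
  · refine char_le hYm hYi ?_ F θ
    exact Filter.Eventually.of_forall fun ω => (summable_XX ha hC (hmono ω)).hasSum.tendsto_sum_nat
  · exact Filter.Eventually.of_forall fun ω => adic_sum (by omega) F fun k _ => ⟨N k ω, c k, rfl⟩
  · set Ev : Set Ω := {ω | ∃ (j : ℕ) (z : ℤ), ∑ k ∈ F, Y k ω - v = z / (b : ℝ) ^ j} with hEv
    rcases Ev.eq_empty_or_nonempty with hemp | ⟨ω₀, j₀, z₀, h₀⟩
    · rw [hemp, measureReal_empty]; exact hη.le
    · have hgap : ∀ ω i, N (idx i) ω + L ≤ N (idx (i + 1)) ω := by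
        intro ω i
        have h1 := (hmono ω).add_le_nat L (idx i)
        have h2 : L + idx i = idx (i + 1) := by simp only [hidx]; ring
        rw [h2] at h1
        omega
      have hfirst : ∀ ω, L ≤ N (idx 0) ω := by
        intro ω
        have h1 : idx 0 ≤ N (idx 0) ω := (hmono ω).le_apply
        have h2 : L ≤ idx 0 := by simp only [hidx]; omega
        omega
      have hsub : Ev ⊆ ⋂ i ∈ range l, (N (idx i)) ⁻¹' {N (idx i) ω₀} := by
        rintro ω ⟨j, z, h⟩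
        rw [Set.mem_iInter₂]
        intro i hi
        have hb0 : (b : ℝ) ≠ 0 := by
          have : b ≠ 0 := by omega
          exact_mod_cast this
        have h1 : ∑ i ∈ range l, (c (idx i) : ℝ) / (a : ℝ) ^ N (idx i) ω -
            ∑ i ∈ range l, (c (idx i) : ℝ) / (a : ℝ) ^ N (idx i) ω₀ =
            ((z * (b : ℤ) ^ j₀ - z₀ * (b : ℤ) ^ j : ℤ) : ℝ) / (b : ℝ) ^ (j + j₀) := by
          rw [← hsumF, ← hsumF]
          have h2 : ∑ k ∈ F, Y k ω - ∑ k ∈ F, Y k ω₀ = z / (b : ℝ) ^ j - z₀ / (b : ℝ) ^ j₀ := by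
            rw [← h, ← h₀]; ring
          rw [h2, pow_add]
          push_cast
          field_simp
        exact uniq hp hpa (by omega) hpb hb (d := fun i => c (idx i)) (fun i => hd _)
          (n := fun i => N (idx i) ω) (n' := fun i => N (idx i) ω₀) (hfirst ω) (hfirst ω₀) (hgap ω)
          (hgap ω₀) l (j + j₀) _ h1 i (Finset.mem_range.1 hi)
      have hind2 : iIndepFun (fun i => N (idx i)) μ := hind.precomp hinj
      have hprod := hind2.measure_inter_preimage_eq_mul (range l)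
        (sets := fun i => {N (idx i) ω₀}) (fun i _ => MeasurableSet.singleton _)
      have hone : ∀ i, μ.real ((N (idx i)) ⁻¹' {N (idx i) ω₀}) ≤ 3 / 4 := by
        intro i
        have h1 : m₀ ≤ idx i := by simp only [hidx]; omega
        refine le_trans ?_ (hm₀ (idx i) h1 (N (idx i) ω₀ % 2) (Nat.mod_lt _ (by norm_num)))
        refine measureReal_mono ?_ (measure_ne_top _ _)
        intro ω hω
        rw [Set.mem_preimage, Set.mem_singleton_iff] at hω
        show N (idx i) ω % 2 = _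
        rw [hω]
      calc μ.real Ev ≤ μ.real (⋂ i ∈ range l, (N (idx i)) ⁻¹' {N (idx i) ω₀}) :=
            measureReal_mono hsub (measure_ne_top _ _)
        _ = ∏ i ∈ range l, μ.real ((N (idx i)) ⁻¹' {N (idx i) ω₀}) := by
            rw [Measure.real, hprod, ENNReal.toReal_prod]
            rfl
        _ ≤ ∏ _i ∈ range l, (3 / 4 : ℝ) :=
            Finset.prod_le_prod (fun i _ => measureReal_nonneg) fun i _ => hone i
        _ = (3 / 4) ^ l := by rw [Finset.prod_const, Finset.card_range]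
        _ ≤ η := hl.le

end Pool.Agent.H92.FB
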