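import Pool.Agent.H92.FB.Mom
import Pool.Agent.N440.FO.Dens

/-! # Convergence of the second moments, visits of open sets -/

set_option autoImplicit false

open Finset MeasureTheory ProbabilityTheory Filter Topology
open Pool.Agent.H1R3.Det (Circ)

namespace Pool.Agent.H92.FB

open Pool.Agent.N440.FO

variable {Ω : Type*} [MeasurableSpace Ω] {μ : Measure Ω} [IsProbabilityMeasure μ]

/-- For every `η > 0` the characteristic function of `X` is dominated by that of a random variable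
which has values in `ℤ[1/a]` and belongs to any coset of `ℤ[1/b]` with a probability at most `η`. -/
def SpreadC (μ : Measure Ω) (a b : ℕ) (X : Ω → ℝ) : Prop :=
  ∀ η : ℝ, 0 < η → ∃ A : Ω → ℝ, Measurable A ∧
    (∀ θ : ℝ, ‖∫ ω, e (θ * X ω) ∂μ‖ ≤ ‖∫ ω, e (θ * A ω) ∂μ‖) ∧
    (∀ᵐ ω ∂μ, ∃ (n : ℕ) (κ : ℤ), A ω = κ / (a : ℝ) ^ n) ∧
    ∀ v : ℝ, μ.real {ω | ∃ (j : ℕ) (z : ℤ), A ω - v = z / (b : ℝ) ^ j} ≤ η

theorem moment_le {a b : ℕ} (ha : 0 < a) (hb : 2 ≤ b) {X : Ω → ℝ} (hXm : Measurable X)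
    (hX : SpreadC μ a b X) {h : ℤ}
    (hh : h ≠ 0) {ε : ℝ} (hε : 0 < ε) : ∀ᶠ N : ℕ in atTop,
      ∫ ω, ‖∑ r ∈ range N, e ((h * (b : ℝ) ^ r) * X ω)‖ ^ 2 ∂μ ≤ (N : ℝ) ^ 2 * ε := by
  obtain ⟨W, hW, hpairs⟩ := pairs ha hb
  have hM0 : 0 < W * h.natAbs := Nat.mul_pos hW (Int.natAbs_pos.2 hh)
  have hM : (0 : ℝ) < ((W * h.natAbs : ℕ) : ℝ) := by exact_mod_cast hM0
  obtain ⟨A, hA, hchar, hval, hconc⟩ := hX (ε ^ 2 / 2 / (W * h.natAbs : ℕ)) (by positivity)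
  have hpm : IsProbabilityMeasure (μ.map A) := Measure.isProbabilityMeasure_map hA.aemeasurable
  have hset : ∀ v : ℝ, MeasurableSet {x : ℝ | ∃ (j : ℕ) (z : ℤ), x - v = z / (b : ℝ) ^ j} := by
    intro v
    have : {x : ℝ | ∃ (j : ℕ) (z : ℤ), x - v = z / (b : ℝ) ^ j} =
        ⋃ j : ℕ, ⋃ z : ℤ, {x | x - v = z / (b : ℝ) ^ j} := by
      ext v; simp
    rw [this]
    exact MeasurableSet.iUnion fun j => MeasurableSet.iUnion fun z =>
      measurableSet_eq_fun (measurable_id.sub_const _) measurable_const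
  have hset2 : MeasurableSet {x : ℝ | ∃ (n : ℕ) (κ : ℤ), x = κ / (a : ℝ) ^ n} := by
    have : {x : ℝ | ∃ (n : ℕ) (κ : ℤ), x = κ / (a : ℝ) ^ n} =
        ⋃ n : ℕ, ⋃ κ : ℤ, {x | x = κ / (a : ℝ) ^ n} := by
      ext v; simp only [Set.mem_setOf_eq, Set.mem_iUnion]
    rw [this]
    exact MeasurableSet.iUnion fun j => MeasurableSet.iUnion fun z =>
      measurableSet_eq_fun measurable_id measurable_const
  have hν1 : ∀ᵐ x ∂(μ.map A), ∃ (n : ℕ) (κ : ℤ), x = κ / (a : ℝ) ^ n :=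
    (ae_map_iff hA.aemeasurable hset2).2 hval
  have hν2 : ∀ v : ℝ, (μ.map A).real {x | ∃ (j : ℕ) (z : ℤ), x - v = z / (b : ℝ) ^ j} ≤
      ε ^ 2 / 2 / (W * h.natAbs : ℕ) := by
    intro v
    rw [map_measureReal_apply hA (hset v)]
    exact hconc v
  filter_upwards [hpairs h hh (μ.map A) _ hν1 hν2 (ε ^ 2 / 2) (by positivity)] with N hN
  refine (second hXm hA hchar N fun r => (h : ℝ) * (b : ℝ) ^ r).trans ?_
  have h2 : (N : ℝ) ^ 2 * ((W * h.natAbs : ℕ) * (ε ^ 2 / 2 / (W * h.natAbs : ℕ)) + ε ^ 2 / 2) =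
      (N * ε) ^ 2 := by
    rw [mul_div_cancel₀ _ hM.ne']
    ring
  rw [h2] at hN
  calc (N : ℝ) * Real.sqrt _ ≤ N * Real.sqrt ((N * ε) ^ 2) := by gcongr
    _ = (N : ℝ) ^ 2 * ε := by rw [Real.sqrt_sq (by positivity)]; ring

/-- An open set is visited almost surely. -/
theorem visit {X : Ω → ℝ} (hX : Measurable X) {b : ℕ}
    (hmom : ∀ (H : ℕ) (η : ℝ), 0 < η → ∃ R : ℕ, 0 < R ∧ ∃ s : ℕ → Ω → ℕ, (∀ r, Measurable (s r)) ∧
      ∀ h : ℤ, h ≠ 0 → |h| ≤ H →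
        ∫ ω, ‖∑ r ∈ range R, e (h * ((b : ℝ) ^ (s r ω) * X ω))‖ ^ 2 ∂μ ≤ (R : ℝ) ^ 2 * η)
    {U : Set Circ} (hU : IsOpen U) (hne : U.Nonempty) :
    ∀ᵐ ω ∂μ, ∃ n : ℕ, ((((b : ℝ) ^ n * X ω : ℝ)) : Circ) ∈ U := by
  classical
  obtain ⟨H, ρ, hρ, hd⟩ := dens hU hne
  rw [ae_iff]
  set Bad : Set Ω := {ω | ¬ ∃ n : ℕ, ((((b : ℝ) ^ n * X ω : ℝ)) : Circ) ∈ U} with hBad
  have key : ∀ η : ℝ, 0 < η → μ.real Bad ≤ (2 * H + 1) * (η / ρ ^ 2) := by
    intro η hη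
    obtain ⟨R, hR, s, hsm, hs⟩ := hmom H η hη
    have hR' : (0 : ℝ) < R := by exact_mod_cast hR
    set W : ℤ → Ω → ℝ := fun h ω =>
      ‖∑ r ∈ range R, e (h * ((b : ℝ) ^ (s r ω) * X ω))‖ ^ 2 with hW
    set F : Finset ℤ := (Finset.Icc (-(H : ℤ)) H).filter (fun h => h ≠ 0) with hF
    have hsub : Bad ⊆ ⋃ h ∈ F, {ω | (R * ρ) ^ 2 ≤ W h ω} := by
      intro ω hω
      by_contra hcon
      apply hω
      have hsmall : Small H ρ R (fun r => (b : ℝ) ^ (s r ω) * X ω) := by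
        intro h hh hhH
        by_contra hlt
        rw [not_le] at hlt
        apply hcon
        rw [Set.mem_iUnion₂]
        refine ⟨h, ?_, ?_⟩
        · rw [hF, Finset.mem_filter, Finset.mem_Icc]
          exact ⟨abs_le.1 hhH, hh⟩
        · show (R * ρ) ^ 2 ≤ ‖∑ r ∈ range R, e (h * ((b : ℝ) ^ (s r ω) * X ω))‖ ^ 2
          gcongr
      obtain ⟨r, _, hr⟩ := hd R _ hR hsmall
      exact ⟨s r ω, hr⟩
    have hWint : ∀ h, Integrable (W h) μ := by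
      intro h
      refine Integrable.of_bound (C := (R : ℝ) ^ 2) ?_ ?_
      · refine Measurable.aestronglyMeasurable ?_
        refine Measurable.pow_const ?_ 2
        refine Measurable.norm ?_
        refine Finset.measurable_sum _ fun r _ => ?_
        refine measurable_e.comp (Measurable.const_mul (Measurable.mul ?_ hX) _)
        exact (measurable_from_nat (f := fun n : ℕ => (b : ℝ) ^ n)).comp (hsm r)
      · refine Filter.Eventually.of_forall fun ω => ?_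
        rw [Real.norm_of_nonneg (by positivity)]
        show ‖∑ r ∈ range R, e (h * ((b : ℝ) ^ (s r ω) * X ω))‖ ^ 2 ≤ _
        gcongr
        calc _ ≤ ∑ r ∈ range R, ‖e (h * ((b : ℝ) ^ (s r ω) * X ω))‖ := norm_sum_le _ _
          _ = R := by simp [norm_e]
    have hmk : ∀ h ∈ F, μ.real {ω | (R * ρ) ^ 2 ≤ W h ω} ≤ η / ρ ^ 2 := by
      intro h hh
      rw [hF, Finset.mem_filter, Finset.mem_Icc] at hh
      have h1 := mul_meas_ge_le_integral_of_nonneg (μ := μ) (f := W h)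
        (Filter.Eventually.of_forall fun ω => by positivity) (hWint h) ((R * ρ) ^ 2)
      have h2 := hs h hh.2 (abs_le.2 hh.1)
      have h3 : (R * ρ) ^ 2 * μ.real {ω | (R * ρ) ^ 2 ≤ W h ω} ≤ (R : ℝ) ^ 2 * η := h1.trans h2
      rw [le_div_iff₀ (by positivity)]
      have h4 : (R : ℝ) ^ 2 * (μ.real {ω | (R * ρ) ^ 2 ≤ W h ω} * ρ ^ 2) ≤ (R : ℝ) ^ 2 * η := by
        calc _ = (R * ρ) ^ 2 * μ.real {ω | (R * ρ) ^ 2 ≤ W h ω} := by ring
          _ ≤ _ := h3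
      exact le_of_mul_le_mul_left h4 (by positivity)
    calc μ.real Bad ≤ μ.real (⋃ h ∈ F, {ω | (R * ρ) ^ 2 ≤ W h ω}) :=
          measureReal_mono hsub (measure_ne_top _ _)
      _ ≤ ∑ h ∈ F, μ.real {ω | (R * ρ) ^ 2 ≤ W h ω} := measureReal_biUnion_finset_le _ _
      _ ≤ ∑ _h ∈ F, η / ρ ^ 2 := Finset.sum_le_sum hmk
      _ = F.card * (η / ρ ^ 2) := by simp
      _ ≤ (2 * H + 1) * (η / ρ ^ 2) := by
          gcongr
          have h1 : F.card ≤ (Finset.Icc (-(H : ℤ)) H).card := Finset.card_filter_le _ _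
          have h2 : (Finset.Icc (-(H : ℤ)) H).card = 2 * H + 1 := by
            rw [Int.card_Icc]; omega
          rw [h2] at h1
          exact_mod_cast h1
  have hz : μ.real Bad ≤ 0 := by
    refine le_of_forall_pos_le_add fun τ hτ => ?_
    rw [zero_add]
    have h1 := key (τ * ρ ^ 2 / (2 * H + 1)) (by positivity)
    refine h1.trans (le_of_eq ?_)
    have : (2 * (H : ℝ) + 1) ≠ 0 := by positivity
    field_simp
  have hz' : μ.real Bad = 0 := le_antisymm hz measureReal_nonneg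
  rwa [measureReal_eq_zero_iff] at hz'

/-- Almost surely the orbit is dense. -/
theorem dense_of {X : Ω → ℝ} (hX : Measurable X) {b : ℕ}
    (hmom : ∀ (H : ℕ) (η : ℝ), 0 < η → ∃ R : ℕ, 0 < R ∧ ∃ s : ℕ → Ω → ℕ, (∀ r, Measurable (s r)) ∧
      ∀ h : ℤ, h ≠ 0 → |h| ≤ H →
        ∫ ω, ‖∑ r ∈ range R, e (h * ((b : ℝ) ^ (s r ω) * X ω))‖ ^ 2 ∂μ ≤ (R : ℝ) ^ 2 * η) :
    ∀ᵐ ω ∂μ, Dense (Set.range fun n : ℕ => b ^ n • ((X ω : ℝ) : Circ)) := by
  obtain ⟨B, hBc, hBe, hB⟩ := TopologicalSpace.exists_countable_basis Circ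
  have h1 : ∀ᵐ ω ∂μ, ∀ U ∈ B, ∃ n : ℕ, ((((b : ℝ) ^ n * X ω : ℝ)) : Circ) ∈ U := by
    rw [ae_ball_iff hBc]
    intro U hU
    exact visit hX hmom (hB.isOpen hU) (Set.nonempty_iff_ne_empty.2 fun h0 => hBe (h0 ▸ hU))
  filter_upwards [h1] with ω hω
  rw [hB.dense_iff]
  intro U hU _
  obtain ⟨n, hn⟩ := hω U hU
  refine ⟨_, hn, n, ?_⟩
  show b ^ n • ((X ω : ℝ) : Circ) = _
  rw [← AddCircle.coe_nsmul, nsmul_eq_mul]
  push_cast
  rfl

theorem dense_spread {a b : ℕ} (ha : 0 < a) (hb : 2 ≤ b) {X : Ω → ℝ} (hXm : Measurable X)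
    (hX : SpreadC μ a b X) :
    ∀ᵐ ω ∂μ, Dense (Set.range fun n : ℕ => b ^ n • ((X ω : ℝ) : Circ)) := by
  refine dense_of hXm fun H η hη => ?_
  have hev : ∀ᶠ N : ℕ in atTop, ∀ h ∈ Finset.Icc (-(H : ℤ)) H, h ≠ 0 →
      ∫ ω, ‖∑ r ∈ range N, e ((h * (b : ℝ) ^ r) * X ω)‖ ^ 2 ∂μ ≤ (N : ℝ) ^ 2 * η := by
    rw [Finset.eventually_all]
    intro h _
    by_cases hh : h = 0
    · exact Filter.Eventually.of_forall fun N h0 => absurd hh h0
    · filter_upwards [moment_le ha hb hXm hX hh hη] with N hN _ using hN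
  obtain ⟨R, hR0, hR⟩ := ((eventually_gt_atTop 0).and hev).exists
  refine ⟨R, hR0, fun r _ => r, fun r => measurable_const, fun h hh hH => ?_⟩
  have := hR h (Finset.mem_Icc.2 (abs_le.1 hH)) hh
  simp_rw [mul_assoc] at this
  exact this

end Pool.Agent.H92.FB
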