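import Pool.Agent.H92.FB.Ar
import Pool.Agent.N440.FO.Prob

/-! # The second moment of the exponential sums of a sum of independent random variables -/

set_option autoImplicit false

open Finset MeasureTheory ProbabilityTheory Filter Topology

namespace Pool.Agent.H92.FB

open Pool.Agent.N440.FO

variable {Ω : Type*} [MeasurableSpace Ω] {μ : Measure Ω} [IsProbabilityMeasure μ]

theorem integrable_e {ν : Measure ℝ} [IsProbabilityMeasure ν] (θ : ℝ) :
    Integrable (fun x : ℝ => e (θ * x)) ν := by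
  refine Integrable.of_bound (C := 1)
    (measurable_e.comp (measurable_id.const_mul _)).aestronglyMeasurable ?_
  exact Filter.Eventually.of_forall fun ω => (norm_e _).le

theorem norm_sq_char {ν : Measure ℝ} [IsProbabilityMeasure ν] (θ : ℝ) :
    ((‖∫ x, e (θ * x) ∂ν‖ ^ 2 : ℝ) : ℂ) = ∫ p : ℝ × ℝ, e (θ * (p.1 - p.2)) ∂(ν.prod ν) := by
  rw [Complex.ofReal_pow, ← Complex.mul_conj']
  simp_rw [e_mul_sub]
  rw [integral_prod_mul (fun x : ℝ => e (θ * x)) (fun y : ℝ => (starRingEnd ℂ) (e (θ * y))),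
    integral_conj]

theorem char_indep {A B : Ω → ℝ} (hA : Measurable A) (hB : Measurable B) (hind : IndepFun A B μ)
    (θ : ℝ) : ‖∫ ω, e (θ * (A ω + B ω)) ∂μ‖ ≤ ‖∫ ω, e (θ * A ω) ∂μ‖ := by
  have hf : Measurable fun x : ℝ => e (θ * x) := measurable_e.comp (measurable_id.const_mul _)
  have h1 : (fun ω => e (θ * (A ω + B ω))) = fun ω => e (θ * A ω) * e (θ * B ω) := by
    funext ω
    rw [← e_add]; congr 1; ring
  have h2 : IndepFun (fun ω => e (θ * A ω)) (fun ω => e (θ * B ω)) μ := hind.comp hf hf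
  have h3 : ∫ ω, e (θ * A ω) * e (θ * B ω) ∂μ = (∫ ω, e (θ * A ω) ∂μ) * ∫ ω, e (θ * B ω) ∂μ :=
    h2.integral_fun_mul_eq_mul_integral (hf.comp hA).aestronglyMeasurable
      (hf.comp hB).aestronglyMeasurable
  rw [h1, h3, norm_mul]
  have h4 : ‖∫ ω, e (θ * B ω) ∂μ‖ ≤ 1 := by
    calc _ ≤ 1 * μ.real Set.univ :=
          norm_integral_le_of_norm_le_const (Filter.Eventually.of_forall fun ω => (norm_e _).le)
      _ = 1 := by simp
  exact mul_le_of_le_one_right (norm_nonneg _) h4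

theorem sum_char_sq {ν : Measure ℝ} [IsProbabilityMeasure ν] (R : ℕ) (t : ℕ → ℝ) :
    ∑ r ∈ range R, ∑ r' ∈ range R, ‖∫ x, e ((t r - t r') * x) ∂ν‖ ^ 2 =
      ∫ p : ℝ × ℝ, ‖∑ r ∈ range R, e (t r * (p.1 - p.2))‖ ^ 2 ∂(ν.prod ν) := by
  have hint : ∀ s : ℝ, Integrable (fun p : ℝ × ℝ => e (s * (p.1 - p.2))) (ν.prod ν) := by
    intro s
    refine Integrable.of_bound (C := 1) (measurable_e.comp
      ((measurable_fst.sub measurable_snd).const_mul _)).aestronglyMeasurable ?_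
    exact Filter.Eventually.of_forall fun ω => (norm_e _).le
  have h : ((∑ r ∈ range R, ∑ r' ∈ range R, ‖∫ x, e ((t r - t r') * x) ∂ν‖ ^ 2 : ℝ) : ℂ) =
      ((∫ p : ℝ × ℝ, ‖∑ r ∈ range R, e (t r * (p.1 - p.2))‖ ^ 2 ∂(ν.prod ν) : ℝ) : ℂ) := by
    rw [← integral_complex_ofReal]
    have h1 : ∀ p : ℝ × ℝ, ((‖∑ r ∈ range R, e (t r * (p.1 - p.2))‖ ^ 2 : ℝ) : ℂ) =
        ∑ r ∈ range R, ∑ r' ∈ range R, e ((t r - t r') * (p.1 - p.2)) := by
      intro p
      rw [Complex.ofReal_pow, ← Complex.mul_conj', map_sum, Finset.sum_mul_sum]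
      refine Finset.sum_congr rfl fun r _ => Finset.sum_congr rfl fun r' _ => ?_
      rw [e_sub_mul]
    simp_rw [h1]
    rw [integral_finsetSum _ fun r _ => integrable_finsetSum _ fun r' _ => hint _]
    rw [Complex.ofReal_sum]
    refine Finset.sum_congr rfl fun r _ => ?_
    rw [integral_finsetSum _ fun r' _ => hint _, Complex.ofReal_sum]
    refine Finset.sum_congr rfl fun r' _ => ?_
    exact norm_sq_char _
  exact_mod_cast h

theorem second {X A : Ω → ℝ} (hX : Measurable X) (hA : Measurable A)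
    (hchar : ∀ θ : ℝ, ‖∫ ω, e (θ * X ω) ∂μ‖ ≤ ‖∫ ω, e (θ * A ω) ∂μ‖) (R : ℕ) (t : ℕ → ℝ) :
    ∫ ω, ‖∑ r ∈ range R, e (t r * X ω)‖ ^ 2 ∂μ ≤ R *
      Real.sqrt (∫ p : ℝ × ℝ, ‖∑ r ∈ range R, e (t r * (p.1 - p.2))‖ ^ 2
        ∂((μ.map A).prod (μ.map A))) := by
  have : IsProbabilityMeasure (μ.map A) := Measure.isProbabilityMeasure_map hA.aemeasurable
  have h1 := integral_sq_le (μ := μ) hX R t
  have h2 : ∑ r ∈ range R, ∑ r' ∈ range R, ‖∫ ω, e ((t r - t r') * X ω) ∂μ‖ ≤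
      ∑ r ∈ range R, ∑ r' ∈ range R, ‖∫ x, e ((t r - t r') * x) ∂(μ.map A)‖ :=
    Finset.sum_le_sum fun r _ => Finset.sum_le_sum fun r' _ => by
      have hf : Measurable fun x : ℝ => e ((t r - t r') * x) :=
        measurable_e.comp (measurable_id.const_mul _)
      rw [integral_map hA.aemeasurable hf.aestronglyMeasurable]
      exact hchar _
  have h3 : ∑ r ∈ range R, ∑ r' ∈ range R, ‖∫ x, e ((t r - t r') * x) ∂(μ.map A)‖ ≤
      Real.sqrt ((R : ℝ) ^ 2 * ∑ r ∈ range R, ∑ r' ∈ range R,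
        ‖∫ x, e ((t r - t r') * x) ∂(μ.map A)‖ ^ 2) := by
    apply Real.le_sqrt_of_sq_le
    rw [← Finset.sum_product', ← Finset.sum_product']
    refine (sq_sum_le_card_mul_sum_sq).trans (le_of_eq ?_)
    rw [Finset.card_product, card_range]; push_cast; ring
  rw [sum_char_sq, Real.sqrt_mul (by positivity), Real.sqrt_sq (Nat.cast_nonneg R)] at h3
  exact h1.trans (h2.trans h3)

/-- `z / (b ^ j M)` is the sum of some `i / M`, `i < M`, and of a `b`-adic rational -/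
theorem exists_rep {b : ℕ} (hb : 2 ≤ b) {M : ℕ} (hM : 0 < M) (j : ℕ) (z : ℤ) :
    ∃ i < M, ∃ (j' : ℕ) (z' : ℤ), (z : ℝ) / ((b : ℝ) ^ j * M) = (i : ℝ) / M + z' / (b : ℝ) ^ j' := by
  have : NeZero M := ⟨hM.ne'⟩
  obtain ⟨s₁, s₂, hne, heq⟩ := Finite.exists_ne_map_eq_of_infinite (fun s : ℕ => ((b : ZMod M) ^ s))
  obtain ⟨s₀, T, hT, hper⟩ : ∃ s₀ T : ℕ, 0 < T ∧ (b : ZMod M) ^ (s₀ + T) = (b : ZMod M) ^ s₀ := by
    rcases Nat.lt_or_gt_of_ne hne with h | h
    · exact ⟨s₁, s₂ - s₁, by omega, by rw [Nat.add_sub_cancel' h.le]; exact heq.symm⟩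
    · exact ⟨s₂, s₁ - s₂, by omega, by rw [Nat.add_sub_cancel' h.le]; exact heq⟩
  have hper2 : ∀ q : ℕ, (b : ZMod M) ^ (s₀ + T * q) = (b : ZMod M) ^ s₀ := by
    intro q
    induction q with
    | zero => simp
    | succ q ih =>
      rw [Nat.mul_succ, ← add_assoc, add_right_comm, pow_add, hper, ← pow_add, ih]
  have hTj : j ≤ T * j := Nat.le_mul_of_pos_left j hT
  set i₁ : ℤ := z * (b : ℤ) ^ (T * j - j) with hi₁
  set i : ℕ := (i₁ % (M : ℤ)).toNat with hi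
  have hMz : (M : ℤ) ≠ 0 := by exact_mod_cast hM.ne'
  have hnn : 0 ≤ i₁ % (M : ℤ) := Int.emod_nonneg _ hMz
  have hlt : i₁ % (M : ℤ) < M := Int.emod_lt_of_pos _ (by exact_mod_cast hM)
  have hiz : (i : ℤ) = i₁ % (M : ℤ) := Int.toNat_of_nonneg hnn
  have hcast : ((i : ℕ) : ZMod M) = ((i₁ : ℤ) : ZMod M) := by
    have h1 : (((i : ℕ) : ℤ) : ZMod M) = ((i₁ : ℤ) : ZMod M) := by
      rw [hiz]
      exact (ZMod.intCast_eq_intCast_iff' _ _ _).2 (Int.emod_emod_of_dvd _ dvd_rfl)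
    rw [← h1]; simp
  have hdvd : (M : ℤ) ∣ (b : ℤ) ^ s₀ * (z - i * (b : ℤ) ^ j) := by
    rw [← ZMod.intCast_zmod_eq_zero_iff_dvd]
    push_cast
    rw [hcast, hi₁]
    push_cast
    rw [mul_sub, sub_eq_zero]
    have h1 : (b : ZMod M) ^ s₀ * ((z : ZMod M) * (b : ZMod M) ^ (T * j - j) * (b : ZMod M) ^ j) =
        (z : ZMod M) * (b : ZMod M) ^ (s₀ + T * j) := by
      rw [mul_assoc (z : ZMod M), ← pow_add, Nat.sub_add_cancel hTj, pow_add]
      ring
    rw [h1, hper2, mul_comm]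
  obtain ⟨z', hz'⟩ := hdvd
  refine ⟨i, by omega, s₀ + j, z', ?_⟩
  have hb0 : (b : ℝ) ≠ 0 := by
    have : b ≠ 0 := by omega
    exact_mod_cast this
  have hM0 : (M : ℝ) ≠ 0 := by exact_mod_cast hM.ne'
  have h2 : (b : ℝ) ^ s₀ * (z - i * (b : ℝ) ^ j) = M * z' := by exact_mod_cast hz'
  rw [div_add_div _ _ hM0 (pow_ne_zero _ hb0), div_eq_div_iff (by positivity) (by positivity),
    pow_add]
  linear_combination ((b : ℝ) ^ j * (M : ℝ)) * h2

/-- the real numbers the products of which with `W` are `b`-adic rationals -/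
def Cb (b : ℕ) (W : ℝ) : Set ℝ := {v | ∃ (j : ℕ) (z : ℤ), W * v = z / (b : ℝ) ^ j}

theorem measurable_Cb (b : ℕ) (W : ℝ) : MeasurableSet (Cb b W) := by
  have : Cb b W = ⋃ j : ℕ, ⋃ z : ℤ, {v | W * v = z / (b : ℝ) ^ j} := by
    ext v; simp [Cb]
  rw [this]
  exact MeasurableSet.iUnion fun j => MeasurableSet.iUnion fun z =>
    measurableSet_eq_fun (measurable_id.const_mul _) measurable_const

theorem section_le {b : ℕ} (hb : 2 ≤ b) {W : ℕ} (hW : 0 < W) {h : ℤ} (hh : h ≠ 0)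
    {ν : Measure ℝ} [IsProbabilityMeasure ν] {η : ℝ}
    (hη : ∀ v : ℝ, ν.real {x | ∃ (j : ℕ) (z : ℤ), x - v = z / (b : ℝ) ^ j} ≤ η) (x : ℝ) :
    ν.real {y | x - y ∈ Cb b (W * h)} ≤ (W * h.natAbs : ℕ) * η := by
  set M : ℕ := W * h.natAbs with hM
  have hM0 : 0 < M := Nat.mul_pos hW (Int.natAbs_pos.2 hh)
  have hb0 : (b : ℝ) ≠ 0 := by
    have : b ≠ 0 := by omega
    exact_mod_cast this
  have hMr : (M : ℝ) ≠ 0 := by exact_mod_cast hM0.ne'
  have hsub : {y | x - y ∈ Cb b (W * h)} ⊆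
      ⋃ i ∈ range M, {y | ∃ (j : ℕ) (z : ℤ), y - (x + i / M) = z / (b : ℝ) ^ j} := by
    rintro y ⟨j, z, hz⟩
    obtain ⟨z₁, hz₁⟩ : ∃ z₁ : ℤ, y - x = z₁ / ((b : ℝ) ^ j * M) := by
      rcases Int.natAbs_eq h with hs | hs
      · refine ⟨-z, ?_⟩
        have hMh : (M : ℝ) = W * h := by
          rw [hs, hM]; push_cast; simp
        rw [eq_div_iff (by positivity), hMh]
        rw [eq_div_iff (by positivity)] at hz
        push_cast
        linear_combination -hz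
      · refine ⟨z, ?_⟩
        have hMh : (M : ℝ) = -(W * h) := by
          rw [hs, hM]; push_cast; simp
        rw [eq_div_iff (by positivity), hMh]
        rw [eq_div_iff (by positivity)] at hz
        linear_combination hz
    obtain ⟨i, hi, j', z', he⟩ := exists_rep hb hM0 j z₁
    rw [Set.mem_iUnion₂]
    refine ⟨i, Finset.mem_range.2 hi, j', z', ?_⟩
    rw [← hz₁] at he
    linarith
  calc ν.real {y | x - y ∈ Cb b (W * h)} ≤
        ν.real (⋃ i ∈ range M, {y | ∃ (j : ℕ) (z : ℤ), y - (x + i / M) = z / (b : ℝ) ^ j}) :=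
        measureReal_mono hsub (measure_ne_top _ _)
    _ ≤ ∑ i ∈ range M, ν.real {y | ∃ (j : ℕ) (z : ℤ), y - (x + i / M) = z / (b : ℝ) ^ j} :=
        measureReal_biUnion_finset_le _ _
    _ ≤ ∑ _i ∈ range M, η := Finset.sum_le_sum fun i _ => hη _
    _ = M * η := by simp

theorem bad_le {b : ℕ} (hb : 2 ≤ b) {W : ℕ} (hW : 0 < W) {h : ℤ} (hh : h ≠ 0)
    {ν : Measure ℝ} [IsProbabilityMeasure ν] {η : ℝ}
    (hη : ∀ v : ℝ, ν.real {x | ∃ (j : ℕ) (z : ℤ), x - v = z / (b : ℝ) ^ j} ≤ η) :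
    (ν.prod ν).real {p : ℝ × ℝ | p.1 - p.2 ∈ Cb b (W * h)} ≤ (W * h.natAbs : ℕ) * η := by
  have hmeas : MeasurableSet {p : ℝ × ℝ | p.1 - p.2 ∈ Cb b (W * h)} :=
    (measurable_fst.sub measurable_snd) (measurable_Cb _ _)
  have hη0 : 0 ≤ η := measureReal_nonneg.trans (hη 0)
  have h1 : (ν.prod ν) {p : ℝ × ℝ | p.1 - p.2 ∈ Cb b (W * h)} ≤
      ENNReal.ofReal ((W * h.natAbs : ℕ) * η) := by
    rw [Measure.prod_apply hmeas]
    calc ∫⁻ x, ν (Prod.mk x ⁻¹' {p : ℝ × ℝ | p.1 - p.2 ∈ Cb b (W * h)}) ∂ν ≤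
          ∫⁻ _x, ENNReal.ofReal ((W * h.natAbs : ℕ) * η) ∂ν := by
          refine lintegral_mono fun x => ?_
          have h2 := section_le hb hW hh hη x
          have h3 : ν {y | x - y ∈ Cb b (W * h)} = ENNReal.ofReal (ν.real {y | x - y ∈ Cb b (W * h)}) :=
            (ofReal_measureReal (measure_ne_top _ _)).symm
          show ν {y | x - y ∈ Cb b (W * h)} ≤ _
          rw [h3]
          exact ENNReal.ofReal_le_ofReal h2
      _ = ENNReal.ofReal ((W * h.natAbs : ℕ) * η) := by simp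
  rw [Measure.real]
  refine (ENNReal.toReal_mono ENNReal.ofReal_ne_top h1).trans ?_
  rw [ENNReal.toReal_ofReal (by positivity)]

/-- The second moment over pairs of values of an `a`-adic rational random variable. -/
theorem pairs {a b : ℕ} (ha : 0 < a) (hb : 2 ≤ b) : ∃ W : ℕ, 0 < W ∧ ∀ (h : ℤ), h ≠ 0 →
    ∀ (ν : Measure ℝ) [IsProbabilityMeasure ν] (η : ℝ),
    (∀ᵐ x ∂ν, ∃ (n : ℕ) (κ : ℤ), x = κ / (a : ℝ) ^ n) →
    (∀ v : ℝ, ν.real {x | ∃ (j : ℕ) (z : ℤ), x - v = z / (b : ℝ) ^ j} ≤ η) →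
    ∀ ε : ℝ, 0 < ε → ∀ᶠ N : ℕ in atTop,
      ∫ p : ℝ × ℝ, ‖∑ r ∈ range N, e ((h * (b : ℝ) ^ r) * (p.1 - p.2))‖ ^ 2 ∂(ν.prod ν) ≤
        (N : ℝ) ^ 2 * ((W * h.natAbs : ℕ) * η + ε) := by
  obtain ⟨W, hW, hblock⟩ := block ha hb
  refine ⟨W, hW, fun h hh ν _ η hν hη ε hε => ?_⟩
  set bad : Set (ℝ × ℝ) := {p : ℝ × ℝ | p.1 - p.2 ∈ Cb b (W * h)} with hbad
  have hmeas : MeasurableSet bad := (measurable_fst.sub measurable_snd) (measurable_Cb _ _)
  set F : ℕ → ℝ × ℝ → ℝ := fun N p =>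
    ‖∑ r ∈ range N, e ((h * (b : ℝ) ^ r) * (p.1 - p.2))‖ ^ 2 / (N : ℝ) ^ 2 with hF
  have hFm : ∀ N, Measurable (F N) := by
    intro N
    refine Measurable.div_const ?_ _
    refine Measurable.pow_const ?_ 2
    refine Measurable.norm ?_
    refine Finset.measurable_sum _ fun r _ => ?_
    exact measurable_e.comp ((measurable_fst.sub measurable_snd).const_mul _)
  have hF0 : ∀ N p, 0 ≤ F N p := fun N p => by rw [hF]; positivity
  have hF1 : ∀ N p, F N p ≤ 1 := by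
    intro N p
    apply div_le_one_of_le₀ _ (by positivity)
    gcongr
    calc _ ≤ ∑ r ∈ range N, ‖e ((h * (b : ℝ) ^ r) * (p.1 - p.2))‖ := norm_sum_le _ _
      _ = N := by simp [norm_e]
  have hFint : ∀ N, Integrable (F N) (ν.prod ν) := fun N =>
    Integrable.of_bound (C := 1) (hFm N).aestronglyMeasurable
      (Filter.Eventually.of_forall fun p => by
        rw [Real.norm_of_nonneg (hF0 N p)]; exact hF1 N p)
  have hν2 : ∀ᵐ p ∂(ν.prod ν), (∃ (n : ℕ) (κ : ℤ), p.1 = κ / (a : ℝ) ^ n) ∧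
      ∃ (n : ℕ) (κ : ℤ), p.2 = κ / (a : ℝ) ^ n := by
    have q1 := Measure.quasiMeasurePreserving_fst (μ := ν) (ν := ν)
    have q2 := Measure.quasiMeasurePreserving_snd (μ := ν) (ν := ν)
    filter_upwards [q1.ae hν, q2.ae hν] with p h1 h2 using ⟨h1, h2⟩
  have ha0 : (a : ℝ) ≠ 0 := by exact_mod_cast ha.ne'
  have hlim : Tendsto (fun N : ℕ => ∫ p, badᶜ.indicator (F N) p ∂(ν.prod ν)) atTop (𝓝 0) := by
    have h0 : (0 : ℝ) = ∫ _p : ℝ × ℝ, (0 : ℝ) ∂(ν.prod ν) := by simp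
    rw [h0]
    refine tendsto_integral_of_dominated_convergence (fun _ => (1 : ℝ)) ?_ (integrable_const _) ?_ ?_
    · intro N
      exact ((hFm N).indicator hmeas.compl).aestronglyMeasurable
    · intro N
      refine Filter.Eventually.of_forall fun p => ?_
      by_cases hp : p ∈ badᶜ
      · rw [Set.indicator_of_mem hp, Real.norm_of_nonneg (hF0 N p)]
        exact hF1 N p
      · rw [Set.indicator_of_notMem hp]; simp
    · filter_upwards [hν2] with p hp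
      by_cases hpb : p ∈ badᶜ
      · simp only [Set.indicator_of_mem hpb]
        obtain ⟨⟨n₁, κ₁, h1⟩, n₂, κ₂, h2⟩ := hp
        have hD : ∃ (n : ℕ) (κ : ℤ), (h : ℝ) * (p.1 - p.2) = κ / (a : ℝ) ^ n := by
          refine ⟨n₁ + n₂, h * (κ₁ * (a : ℤ) ^ n₂ - κ₂ * (a : ℤ) ^ n₁), ?_⟩
          rw [h1, h2]
          push_cast
          rw [pow_add]
          field_simp
        have hgood : ∀ (j : ℕ) (z : ℤ), (W : ℝ) * ((h : ℝ) * (p.1 - p.2)) ≠ z / (b : ℝ) ^ j := by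
          intro j z hz
          apply hpb
          exact ⟨j, z, by rw [← hz]; ring⟩
        have h3 := avg_tendsto hblock hD hgood
        refine h3.congr fun N => ?_
        show _ = ‖∑ r ∈ range N, e ((h * (b : ℝ) ^ r) * (p.1 - p.2))‖ ^ 2 / (N : ℝ) ^ 2
        congr 3
        refine Finset.sum_congr rfl fun r _ => ?_
        congr 1; ring
      · simp only [Set.indicator_of_notMem hpb]
        exact tendsto_const_nhds
  have hev := (tendsto_order.1 hlim).2 ε hε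
  filter_upwards [hev, eventually_gt_atTop 0] with N hN hN0
  have hN' : (0 : ℝ) < N := by exact_mod_cast hN0
  have h5 : ∫ p, F N p ∂(ν.prod ν) ≤ (W * h.natAbs : ℕ) * η + ε := by
    have hle : ∀ p, F N p ≤ bad.indicator (fun _ => (1 : ℝ)) p + badᶜ.indicator (F N) p := by
      intro p
      by_cases hp : p ∈ bad
      · rw [Set.indicator_of_mem hp, Set.indicator_of_notMem (Set.notMem_compl_iff.2 hp), add_zero]
        exact hF1 N p
      · rw [Set.indicator_of_notMem hp, Set.indicator_of_mem (show p ∈ badᶜ from hp), zero_add]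
    have i1 : Integrable (bad.indicator (fun _ => (1 : ℝ))) (ν.prod ν) :=
      (integrable_const _).indicator hmeas
    have i2 : Integrable (badᶜ.indicator (F N)) (ν.prod ν) := (hFint N).indicator hmeas.compl
    calc ∫ p, F N p ∂(ν.prod ν) ≤
          ∫ p, (bad.indicator (fun _ => (1 : ℝ)) p + badᶜ.indicator (F N) p) ∂(ν.prod ν) :=
          integral_mono (hFint N) (i1.add i2) hle
      _ = ∫ p, bad.indicator (fun _ => (1 : ℝ)) p ∂(ν.prod ν) +
          ∫ p, badᶜ.indicator (F N) p ∂(ν.prod ν) := integral_add i1 i2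
      _ ≤ (W * h.natAbs : ℕ) * η + ε := by
          refine add_le_add ?_ hN.le
          rw [integral_indicator hmeas, setIntegral_const, smul_eq_mul, mul_one]
          exact bad_le hb hW hh hη
  have h6 : ∫ p : ℝ × ℝ, ‖∑ r ∈ range N, e ((h * (b : ℝ) ^ r) * (p.1 - p.2))‖ ^ 2 ∂(ν.prod ν) =
      (N : ℝ) ^ 2 * ∫ p, F N p ∂(ν.prod ν) := by
    rw [← integral_const_mul]
    refine integral_congr_ae (Filter.Eventually.of_forall fun p => ?_)
    show _ = (N : ℝ) ^ 2 * (‖∑ r ∈ range N, e ((h * (b : ℝ) ^ r) * (p.1 - p.2))‖ ^ 2 / (N : ℝ) ^ 2)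
    rw [mul_div_cancel₀ _ (by positivity)]
  rw [h6]
  gcongr

end Pool.Agent.H92.FB
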