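import Pool.Agent.H92.FB.Lim

/-! # Windows before the places `N k`: random exponents -/

set_option autoImplicit false

open Finset MeasureTheory ProbabilityTheory Filter Topology

namespace Pool.Agent.H92.FB

open Pool.Agent.N440.FO

variable {Ω : Type*} [MeasurableSpace Ω] {μ : Measure Ω} [IsProbabilityMeasure μ]

/-- equidistribution of random integers in all residue classes -/
def Equi (μ : Measure Ω) (N : ℕ → Ω → ℕ) : Prop :=
  ∀ q r : ℕ, r < q → Tendsto (fun k => μ.real {ω | N k ω % q = r}) atTop (𝓝 (1 / q))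

theorem periodic_of {f : ℕ → ℂ} {m₀ P : ℕ}
    (h : ∀ m : ℕ, m₀ ≤ m → ∑ i ∈ range P, f (m + i) = 0) {m : ℕ} (hm : m₀ ≤ m) : f (m + P) = f m := by
  rcases Nat.eq_zero_or_pos P with rfl | hP
  · simp
  have h1 := h m hm
  have h2 := h (m + 1) (by omega)
  obtain ⟨Q, rfl⟩ : ∃ Q, P = Q + 1 := ⟨P - 1, by omega⟩
  rw [Finset.sum_range_succ'] at h1
  rw [Finset.sum_range_succ] at h2
  have h3 : ∑ i ∈ range Q, f (m + (i + 1)) = ∑ i ∈ range Q, f (m + 1 + i) :=
    Finset.sum_congr rfl fun i _ => by congr 1; ring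
  rw [h3, add_zero] at h1
  have h4 : m + (Q + 1) = m + 1 + Q := by ring
  rw [h4]
  exact add_left_cancel (h2.trans h1.symm)

theorem periodic_mod {f : ℕ → ℂ} {m₀ P : ℕ}
    (h : ∀ m : ℕ, m₀ ≤ m → ∑ i ∈ range P, f (m + i) = 0) {m : ℕ} (hm : m₀ ≤ m) (i : ℕ) :
    f (m + i) = f (m + i % P) := by
  have h1 : ∀ q i : ℕ, f (m + (i + P * q)) = f (m + i) := by
    intro q
    induction q with
    | zero => intro i; simp
    | succ q ih =>
      intro i
      have : m + (i + P * (q + 1)) = (m + (i + P * q)) + P := by ring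
      rw [this, periodic_of h (by omega), ih]
  conv_lhs => rw [← Nat.mod_add_div i P]
  exact h1 _ _

theorem periodic_expect {N : ℕ → Ω → ℕ} (hN : ∀ k, Measurable (N k)) (hE : Equi μ N)
    (hlarge : ∀ T : ℕ, ∀ᶠ k in atTop, ∀ ω, T ≤ N k ω) {β P ρ m₀ : ℕ} (hβ : 0 < β) (hP : 0 < P)
    (hρ : ρ < β) {f : ℕ → ℂ} (h : ∀ m : ℕ, m₀ ≤ m → ∑ i ∈ range P, f (m + i) = 0) :
    Tendsto (fun k => ∫ ω, (if N k ω % β = ρ then f (N k ω / β) else 0) ∂μ) atTop (𝓝 0) := by
  classical
  set T : ℕ := P * m₀ with hT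
  have hTm : m₀ ≤ T := Nat.le_mul_of_pos_left _ hP
  have hlt : ∀ j < P, ρ + β * j < β * P := by
    intro j hj
    calc ρ + β * j < β + β * j := by omega
      _ = β * (j + 1) := by ring
      _ ≤ β * P := Nat.mul_le_mul_left _ hj
  have hmain : ∀ᶠ k in atTop, ∫ ω, (if N k ω % β = ρ then f (N k ω / β) else 0) ∂μ =
      ∑ j ∈ range P, f (T + j) * ((μ.real {ω | N k ω % (β * P) = ρ + β * j} - 1 / (β * P : ℕ) : ℝ) : ℂ) := by
    filter_upwards [hlarge (β * T)] with k hk
    have h1 : ∀ ω, (if N k ω % β = ρ then f (N k ω / β) else 0) =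
        ∑ j ∈ range P, {ω | N k ω % (β * P) = ρ + β * j}.indicator (fun _ => f (T + j)) ω := by
      intro ω
      have hmm : N k ω % (β * P) = N k ω % β + β * (N k ω / β % P) := Nat.mod_mul
      by_cases hr : N k ω % β = ρ
      · rw [if_pos hr, Finset.sum_eq_single (N k ω / β % P)]
        · rw [Set.indicator_of_mem (by rw [Set.mem_setOf_eq, hmm, hr])]
          have h2 : T ≤ N k ω / β := by
            rw [Nat.le_div_iff_mul_le hβ, mul_comm]; exact hk ω
          obtain ⟨i, hi⟩ := Nat.exists_eq_add_of_le h2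
          rw [hi, periodic_mod h hTm, hT, Nat.mul_add_mod]
        · intro j hj hne
          rw [Set.indicator_of_notMem]
          rw [Set.mem_setOf_eq, hmm, hr]
          intro h3
          have : β * (N k ω / β % P) = β * j := by omega
          exact hne (Nat.eq_of_mul_eq_mul_left hβ this).symm
        · intro h3
          exact absurd (Finset.mem_range.2 (Nat.mod_lt _ hP)) h3
      · rw [if_neg hr]
        symm
        refine Finset.sum_eq_zero fun j hj => ?_
        rw [Set.indicator_of_notMem]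
        rw [Set.mem_setOf_eq]
        intro h3
        apply hr
        have h4 : (N k ω % (β * P)) % β = N k ω % β := Nat.mod_mul_right_mod _ _ _
        rw [← h4, h3, Nat.add_mul_mod_self_left, Nat.mod_eq_of_lt hρ]
    have hms : ∀ j, MeasurableSet {ω | N k ω % (β * P) = ρ + β * j} := by
      intro j
      exact (hN k) (measurableSet_eq_fun (f := fun n : ℕ => n % (β * P))
        (g := fun _ => ρ + β * j) (measurable_from_nat) measurable_const)
    simp_rw [h1]
    rw [integral_finsetSum _ fun j _ => (integrable_const _).indicator (hms j)]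
    have h5 : ∑ j ∈ range P, f (T + j) * (((1 / (β * P : ℕ) : ℝ)) : ℂ) = 0 := by
      rw [← Finset.sum_mul, h T hTm, zero_mul]
    rw [← sub_zero (∑ j ∈ range P, ∫ ω, _ ∂μ), ← h5, ← Finset.sum_sub_distrib]
    refine Finset.sum_congr rfl fun j _ => ?_
    rw [integral_indicator (hms j), setIntegral_const, Complex.ofReal_sub, mul_sub]
    congr 1
    rw [Complex.real_smul, mul_comm]
  have hlim : Tendsto (fun k => ∑ j ∈ range P, f (T + j) *
      ((μ.real {ω | N k ω % (β * P) = ρ + β * j} - 1 / (β * P : ℕ) : ℝ) : ℂ)) atTop (𝓝 0) := by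
    have h0 : (0 : ℂ) = ∑ j ∈ range P, f (T + j) * 0 := by simp
    rw [h0]
    refine tendsto_finset_sum _ fun j hj => ?_
    refine Tendsto.const_mul _ ?_
    have h1 := (hE (β * P) (ρ + β * j) (hlt j (Finset.mem_range.1 hj))).sub_const
      (1 / ((β * P : ℕ) : ℝ))
    rw [sub_self] at h1
    have h2 := (Complex.continuous_ofReal.tendsto 0).comp h1
    simpa [Function.comp_def] using h2
  exact hlim.congr' (hmain.mono fun k hk => hk.symm)

end Pool.Agent.H92.FB
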