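import Pool.Agent.H92.FB.Win

/-! # The second moment in a window -/

set_option autoImplicit false

open Finset MeasureTheory ProbabilityTheory Filter Topology

namespace Pool.Agent.H92.FB

open Pool.Agent.N440.FO

variable {Ω : Type*} [MeasurableSpace Ω] {μ : Measure Ω} [IsProbabilityMeasure μ]

/-- the main term of the orbit at the time `α (N / β - r)` -/
noncomputable def yy (a g β : ℕ) (c : ℤ) (N r : ℕ) : ℝ :=
  (g : ℝ) ^ (N / β - r) * c / (a : ℝ) ^ (N % β + β * r)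

theorem not_adic {p a g W : ℕ} (hp : p.Prime) (hpa : p ∣ a) (ha : 0 < a) (hg : 2 ≤ g) (hpg : ¬ p ∣ g) {u : ℤ}
    (hu : u ≠ 0) {n d s : ℕ} (hd : 0 < d) (hn : W * u.natAbs < n + 1) (hW : 0 < W)
    (β : ℕ) (hβ : 0 < β) (j : ℕ) (z : ℤ) :
    (W : ℝ) * (((u * (g : ℤ) ^ s * (1 - (g : ℤ) ^ d * (a : ℤ) ^ (β * d)) : ℤ) : ℝ) / (a : ℝ) ^ n) ≠
      z / (g : ℝ) ^ j := by
  intro h
  have ha0 : (a : ℝ) ≠ 0 := by exact_mod_cast ha.ne'
  have hg0 : (g : ℝ) ≠ 0 := by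
    have : g ≠ 0 := by omega
    exact_mod_cast this
  rw [mul_div_assoc', div_eq_div_iff (pow_ne_zero _ ha0) (pow_ne_zero _ hg0)] at h
  have h1 : (W : ℤ) * (u * (g : ℤ) ^ s * (1 - (g : ℤ) ^ d * (a : ℤ) ^ (β * d))) * (g : ℤ) ^ j =
      z * (a : ℤ) ^ n := by exact_mod_cast h
  have hpz := Nat.prime_iff_prime_int.1 hp
  have h2 : (p : ℤ) ^ n ∣ (W * u) * ((g : ℤ) ^ (s + j) * (1 - (g : ℤ) ^ d * (a : ℤ) ^ (β * d))) := by
    have h3 : (p : ℤ) ^ n ∣ z * (a : ℤ) ^ n :=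
      Dvd.dvd.mul_left (pow_dvd_pow_of_dvd (by exact_mod_cast hpa) n) z
    rw [← h1] at h3
    refine h3.trans (dvd_of_eq ?_)
    rw [pow_add]; ring
  have hcop1 : IsCoprime (p : ℤ) (g : ℤ) := by
    rw [Nat.isCoprime_iff_coprime]
    exact (Nat.Prime.coprime_iff_not_dvd hp).2 hpg
  have hcop2 : IsCoprime (p : ℤ) (1 - (g : ℤ) ^ d * (a : ℤ) ^ (β * d)) := by
    have h3 : (p : ℤ) ∣ (g : ℤ) ^ d * (a : ℤ) ^ (β * d) := by
      refine Dvd.dvd.mul_left ?_ _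
      refine Dvd.dvd.trans (show (p : ℤ) ∣ (a : ℤ) by exact_mod_cast hpa) ?_
      exact dvd_pow_self _ (Nat.mul_pos hβ hd).ne'
    obtain ⟨w, hw⟩ := h3
    exact ⟨w, 1, by rw [hw]; ring⟩
  have h4 : IsCoprime ((p : ℤ) ^ n) ((g : ℤ) ^ (s + j) * (1 - (g : ℤ) ^ d * (a : ℤ) ^ (β * d))) :=
    (hcop1.pow_right.mul_right hcop2).pow_left
  have h5 := h4.dvd_of_dvd_mul_right h2
  have h6 : (W : ℤ) * u ≠ 0 := mul_ne_zero (by exact_mod_cast hW.ne') hu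
  have h7 : p ^ n ∣ ((W : ℤ) * u).natAbs := by
    have := Int.natAbs_dvd_natAbs.2 h5
    simpa [Int.natAbs_pow] using this
  have h8 := Nat.le_of_dvd (Int.natAbs_pos.2 h6) h7
  rw [Int.natAbs_mul, Int.natAbs_natCast] at h8
  have h9 : n < p ^ n := Nat.lt_pow_self hp.one_lt
  omega

theorem pair_aux {N : ℕ → Ω → ℕ} (hN : ∀ k, Measurable (N k)) (hE : Equi μ N)
    (hlarge : ∀ T : ℕ, ∀ᶠ k in atTop, ∀ ω, T ≤ N k ω) {p a g β W : ℕ} (hp : p.Prime) (hpa : p ∣ a)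
    (ha : 0 < a) (hg : 2 ≤ g) (hpg : ¬ p ∣ g) (hβ : 0 < β) (hW : 0 < W)
    (hblock : ∀ n : ℕ, ∃ m₀ P : ℕ, 0 < P ∧
      ∀ κ : ℤ, (∀ (j : ℕ) (z : ℤ), (W : ℝ) * (κ / (a : ℝ) ^ n) ≠ z / (g : ℝ) ^ j) →
        ∀ m : ℕ, m₀ ≤ m → ∑ i ∈ range P, e ((g : ℝ) ^ (m + i) * (κ / (a : ℝ) ^ n)) = 0)
    {c h : ℤ} (hc : c ≠ 0) (hh : h ≠ 0) {r r' : ℕ} (hrr : r' < r) (hr : W * (h * c).natAbs ≤ r) :
    Tendsto (fun k => ∫ ω, e (h * (yy a g β c (N k ω) r - yy a g β c (N k ω) r')) ∂μ) atTop (𝓝 0) := by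
  have ha0 : (a : ℝ) ≠ 0 := by exact_mod_cast ha.ne'
  -- the function of `τ` for a given residue `ρ`
  set f : ℕ → ℕ → ℂ := fun ρ τ => e (h * ((g : ℝ) ^ (τ - r) * c / (a : ℝ) ^ (ρ + β * r) -
    (g : ℝ) ^ (τ - r') * c / (a : ℝ) ^ (ρ + β * r'))) with hf
  have hsplit : ∀ k ω, e (h * (yy a g β c (N k ω) r - yy a g β c (N k ω) r')) =
      ∑ ρ ∈ range β, (if N k ω % β = ρ then f ρ (N k ω / β) else 0) := by
    intro k ω
    rw [Finset.sum_eq_single (N k ω % β)]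
    · rw [if_pos rfl]; rfl
    · intro ρ _ hne
      rw [if_neg (Ne.symm hne)]
    · intro h3
      exact absurd (Finset.mem_range.2 (Nat.mod_lt _ hβ)) h3
  have hmeas : ∀ k ρ, Measurable fun ω => (if N k ω % β = ρ then f ρ (N k ω / β) else 0) := by
    intro k ρ
    exact (measurable_from_nat (f := fun n : ℕ => (if n % β = ρ then f ρ (n / β) else 0))).comp (hN k)
  have hint : ∀ k ρ, Integrable (fun ω => (if N k ω % β = ρ then f ρ (N k ω / β) else 0)) μ := by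
    intro k ρ
    refine Integrable.of_bound (C := 1) (hmeas k ρ).aestronglyMeasurable ?_
    refine Filter.Eventually.of_forall fun ω => ?_
    split_ifs
    · exact (norm_e _).le
    · simp
  have hint2 : ∀ k, ∫ ω, e (h * (yy a g β c (N k ω) r - yy a g β c (N k ω) r')) ∂μ =
      ∑ ρ ∈ range β, ∫ ω, (if N k ω % β = ρ then f ρ (N k ω / β) else 0) ∂μ := by
    intro k
    simp_rw [hsplit]
    exact integral_finsetSum _ fun ρ _ => hint k ρ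
  simp_rw [hint2]
  suffices key : ∀ ρ ∈ range β, Tendsto (fun k => ∫ ω, (if N k ω % β = ρ then f ρ (N k ω / β) else 0) ∂μ)
      atTop (𝓝 0) by
    have h7 := tendsto_finset_sum (range β) key
    rwa [Finset.sum_const_zero] at h7
  intro ρ hρ
  obtain ⟨m₀, P, hP, hb⟩ := hblock (ρ + β * r)
  refine periodic_expect hN hE hlarge hβ hP (Finset.mem_range.1 hρ) (m₀ := m₀ + r) ?_
  intro m hm
  obtain ⟨m₁, rfl⟩ : ∃ m₁, m = m₁ + r := ⟨m - r, by omega⟩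
  set κ : ℤ := (h * c) * (g : ℤ) ^ 0 * (1 - (g : ℤ) ^ (r - r') * (a : ℤ) ^ (β * (r - r'))) with hκ
  have hb' := hb κ (fun j z => by
    have h1 : r ≤ ρ + β * r := (Nat.le_mul_of_pos_left r hβ).trans (Nat.le_add_left _ _)
    exact not_adic hp hpa ha hg hpg (mul_ne_zero hh hc) (by omega) (by omega) hW β hβ j z) m₁ (by omega)
  rw [← hb']
  refine Finset.sum_congr rfl fun i _ => ?_
  simp only [hf]
  congr 1
  have e1 : m₁ + r + i - r = m₁ + i := by omega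
  have e2 : m₁ + r + i - r' = (m₁ + i) + (r - r') := by omega
  have e3 : ρ + β * r = (ρ + β * r') + β * (r - r') := by
    have : β * r = β * r' + β * (r - r') := by
      rw [← mul_add, Nat.add_sub_cancel' hrr.le]
    omega
  rw [e1, e2, e3, hκ]
  push_cast
  rw [pow_add (a : ℝ), pow_add (g : ℝ) (m₁ + i)]
  field_simp

theorem pair_tendsto {N : ℕ → Ω → ℕ} (hN : ∀ k, Measurable (N k)) (hE : Equi μ N)
    (hlarge : ∀ T : ℕ, ∀ᶠ k in atTop, ∀ ω, T ≤ N k ω) {p a g β W : ℕ} (hp : p.Prime) (hpa : p ∣ a)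
    (ha : 0 < a) (hg : 2 ≤ g) (hpg : ¬ p ∣ g) (hβ : 0 < β) (hW : 0 < W)
    (hblock : ∀ n : ℕ, ∃ m₀ P : ℕ, 0 < P ∧
      ∀ κ : ℤ, (∀ (j : ℕ) (z : ℤ), (W : ℝ) * (κ / (a : ℝ) ^ n) ≠ z / (g : ℝ) ^ j) →
        ∀ m : ℕ, m₀ ≤ m → ∑ i ∈ range P, e ((g : ℝ) ^ (m + i) * (κ / (a : ℝ) ^ n)) = 0)
    {c h : ℤ} (hc : c ≠ 0) (hh : h ≠ 0) {r r' : ℕ} (hrr : r ≠ r')
    (hr : W * (h * c).natAbs ≤ r ∨ W * (h * c).natAbs ≤ r') :
    Tendsto (fun k => ∫ ω, e (h * (yy a g β c (N k ω) r - yy a g β c (N k ω) r')) ∂μ) atTop (𝓝 0) := by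
  rcases Nat.lt_or_gt_of_ne hrr with h1 | h1
  · have h2 := pair_aux hN hE hlarge hp hpa ha hg hpg hβ hW hblock (h := -h) hc (neg_ne_zero.2 hh) h1
      (by rw [neg_mul, Int.natAbs_neg]; rcases hr with h3 | h3 <;> omega)
    refine h2.congr fun k => ?_
    congr 1
    funext ω
    congr 1
    push_cast
    ring
  · exact pair_aux hN hE hlarge hp hpa ha hg hpg hβ hW hblock hc hh h1 (by
      rcases hr with h3 | h3 <;> omega)

end Pool.Agent.H92.FB
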