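import Pool.Agent.H92.FB.Win2

/-! # The second moment of the main terms in a window -/

set_option autoImplicit false

open Finset MeasureTheory ProbabilityTheory Filter Topology

namespace Pool.Agent.H92.FB

open Pool.Agent.N440.FO

variable {Ω : Type*} [MeasurableSpace Ω] {μ : Measure Ω} [IsProbabilityMeasure μ]

theorem integral_sq_gen {x : ℕ → Ω → ℝ} (hx : ∀ r, Measurable (x r)) (R : ℕ) :
    ∫ ω, ‖∑ r ∈ range R, e (x r ω)‖ ^ 2 ∂μ ≤
      ∑ r ∈ range R, ∑ r' ∈ range R, ‖∫ ω, e (x r ω - x r' ω) ∂μ‖ := by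
  have h1 : ∀ ω, ((‖∑ r ∈ range R, e (x r ω)‖ ^ 2 : ℝ) : ℂ) =
      ∑ r ∈ range R, ∑ r' ∈ range R, e (x r ω - x r' ω) := by
    intro ω
    rw [Complex.ofReal_pow, ← Complex.mul_conj', map_sum, Finset.sum_mul_sum]
    refine Finset.sum_congr rfl fun r _ => Finset.sum_congr rfl fun r' _ => ?_
    rw [← e_neg, ← e_add, sub_eq_add_neg]
  have hint : ∀ r r' : ℕ, Integrable (fun ω => e (x r ω - x r' ω)) μ := by
    intro r r'
    refine Integrable.of_bound (C := 1)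
      (measurable_e.comp ((hx r).sub (hx r'))).aestronglyMeasurable ?_
    exact Filter.Eventually.of_forall fun ω => (norm_e _).le
  have h2 : ((∫ ω, ‖∑ r ∈ range R, e (x r ω)‖ ^ 2 ∂μ : ℝ) : ℂ) =
      ∑ r ∈ range R, ∑ r' ∈ range R, ∫ ω, e (x r ω - x r' ω) ∂μ := by
    rw [← integral_complex_ofReal]
    simp_rw [h1]
    rw [integral_finsetSum _ fun r _ => integrable_finsetSum _ fun r' _ => hint _ _]
    refine Finset.sum_congr rfl fun r _ => ?_
    rw [integral_finsetSum _ fun r' _ => hint _ _]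
  have h3 : 0 ≤ ∫ ω, ‖∑ r ∈ range R, e (x r ω)‖ ^ 2 ∂μ :=
    integral_nonneg fun ω => by positivity
  calc ∫ ω, ‖∑ r ∈ range R, e (x r ω)‖ ^ 2 ∂μ
      = ‖((∫ ω, ‖∑ r ∈ range R, e (x r ω)‖ ^ 2 ∂μ : ℝ) : ℂ)‖ := by
        rw [Complex.norm_real, Real.norm_of_nonneg h3]
    _ = ‖∑ r ∈ range R, ∑ r' ∈ range R, ∫ ω, e (x r ω - x r' ω) ∂μ‖ := by rw [h2]
    _ ≤ ∑ r ∈ range R, ‖∑ r' ∈ range R, ∫ ω, e (x r ω - x r' ω) ∂μ‖ := norm_sum_le _ _
    _ ≤ _ := Finset.sum_le_sum fun r _ => norm_sum_le _ _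

theorem window {N : ℕ → Ω → ℕ} (hN : ∀ k, Measurable (N k)) (hE : Equi μ N)
    (hlarge : ∀ T : ℕ, ∀ᶠ k in atTop, ∀ ω, T ≤ N k ω) {p a g β : ℕ} (hp : p.Prime) (hpa : p ∣ a)
    (ha : 0 < a) (hg : 2 ≤ g) (hpg : ¬ p ∣ g) (hβ : 0 < β)
    {c : ℕ → ℤ} (hc0 : ∀ k, c k ≠ 0) {C : ℕ} (hC : ∀ k, |c k| ≤ C) (H : ℕ) {η : ℝ} (hη : 0 < η) :
    ∃ R : ℕ, 0 < R ∧ ∀ᶠ k in atTop, ∀ h : ℤ, h ≠ 0 → |h| ≤ H →
      ∫ ω, ‖∑ r ∈ range R, e (h * yy a g β (c k) (N k ω) r)‖ ^ 2 ∂μ ≤ (R : ℝ) ^ 2 * η := by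
  classical
  obtain ⟨W, hW, hblock⟩ := block ha hg
  set i₀ : ℕ := W * (H * C) with hi₀
  obtain ⟨R, hR⟩ := exists_nat_gt (2 * (1 + (i₀ : ℝ) ^ 2) / η)
  have hRpos : (0 : ℝ) < R := lt_trans (by positivity) hR
  have hR0 : 0 < R := by exact_mod_cast hRpos
  have hR1 : (1 : ℝ) ≤ R := by exact_mod_cast hR0
  refine ⟨R, hR0, ?_⟩
  have hev : ∀ᶠ k in atTop, ∀ h ∈ Finset.Icc (-(H : ℤ)) H, ∀ d ∈ Finset.Icc (-(C : ℤ)) C,
      ∀ r ∈ range R, ∀ r' ∈ range R, h ≠ 0 → d ≠ 0 → r ≠ r' → (i₀ ≤ r ∨ i₀ ≤ r') →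
        ‖∫ ω, e (h * (yy a g β d (N k ω) r - yy a g β d (N k ω) r')) ∂μ‖ ≤ η / 2 := by
    rw [Finset.eventually_all]
    intro h hh
    rw [Finset.eventually_all]
    intro d hd
    rw [Finset.eventually_all]
    intro r _
    rw [Finset.eventually_all]
    intro r' _
    by_cases hcond : h ≠ 0 ∧ d ≠ 0 ∧ r ≠ r' ∧ (i₀ ≤ r ∨ i₀ ≤ r')
    · obtain ⟨hh0, hd0, hrr, hor⟩ := hcond
      have hle : W * (h * d).natAbs ≤ i₀ := by
        rw [hi₀, Int.natAbs_mul]
        have h1 : h.natAbs ≤ H := by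
          rw [Finset.mem_Icc] at hh; omega
        have h2 : d.natAbs ≤ C := by
          rw [Finset.mem_Icc] at hd; omega
        gcongr
      have h3 := pair_tendsto hN hE hlarge hp hpa ha hg hpg hβ hW hblock hd0 hh0 hrr
        (hor.imp hle.trans hle.trans)
      have h4 := (h3.norm).eventually_le_const (u := η / 2) (by rw [norm_zero]; positivity)
      filter_upwards [h4] with k hk _ _ _ _ using hk
    · exact Filter.Eventually.of_forall fun k a1 a2 a3 a4 => absurd ⟨a1, a2, a3, a4⟩ hcond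
  filter_upwards [hev] with k hk h hh hhH
  have hmeas : ∀ r, Measurable fun ω => (h : ℝ) * yy a g β (c k) (N k ω) r := fun r =>
    (measurable_from_nat (f := fun n : ℕ => (h : ℝ) * yy a g β (c k) n r)).comp (hN k)
  refine (integral_sq_gen hmeas R).trans ?_
  have hpair : ∀ r ∈ range R, ∀ r' ∈ range R,
      ‖∫ ω, e (h * yy a g β (c k) (N k ω) r - h * yy a g β (c k) (N k ω) r') ∂μ‖ ≤
        η / 2 + (if r = r' then (1 : ℝ) else 0) +
          (if r < i₀ then (1 : ℝ) else 0) * (if r' < i₀ then (1 : ℝ) else 0) := by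
    intro r hr r' hr'
    have hle1 : ‖∫ ω, e (h * yy a g β (c k) (N k ω) r - h * yy a g β (c k) (N k ω) r') ∂μ‖ ≤ 1 := by
      calc _ ≤ 1 * μ.real Set.univ :=
            norm_integral_le_of_norm_le_const (Filter.Eventually.of_forall fun ω => (norm_e _).le)
        _ = 1 := by simp
    by_cases h1 : r = r'
    · rw [if_pos h1]
      have : 0 ≤ (if r < i₀ then (1 : ℝ) else 0) * (if r' < i₀ then (1 : ℝ) else 0) := by
        split_ifs <;> norm_num
      linarith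
    · rw [if_neg h1]
      by_cases h2 : r < i₀ ∧ r' < i₀
      · rw [if_pos h2.1, if_pos h2.2]
        linarith
      · have h3 : i₀ ≤ r ∨ i₀ ≤ r' := by omega
        have h4 := hk h (Finset.mem_Icc.2 (abs_le.1 hhH)) (c k) (Finset.mem_Icc.2 (abs_le.1 (hC k)))
          r hr r' hr' hh (hc0 k) h1 h3
        have h5 : ∫ ω, e (h * yy a g β (c k) (N k ω) r - h * yy a g β (c k) (N k ω) r') ∂μ =
            ∫ ω, e (h * (yy a g β (c k) (N k ω) r - yy a g β (c k) (N k ω) r')) ∂μ := by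
          simp_rw [mul_sub]
        rw [h5]
        have : 0 ≤ (if r < i₀ then (1 : ℝ) else 0) * (if r' < i₀ then (1 : ℝ) else 0) := by
          split_ifs <;> norm_num
        linarith
  calc ∑ r ∈ range R, ∑ r' ∈ range R,
        ‖∫ ω, e (h * yy a g β (c k) (N k ω) r - h * yy a g β (c k) (N k ω) r') ∂μ‖ ≤
        ∑ r ∈ range R, ∑ r' ∈ range R, (η / 2 + (if r = r' then (1 : ℝ) else 0) +
          (if r < i₀ then (1 : ℝ) else 0) * (if r' < i₀ then (1 : ℝ) else 0)) :=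
        Finset.sum_le_sum fun r hr => Finset.sum_le_sum fun r' hr' => hpair r hr r' hr'
    _ = (R : ℝ) ^ 2 * (η / 2) + R + (∑ r ∈ range R, if r < i₀ then (1 : ℝ) else 0) ^ 2 := by
        simp_rw [Finset.sum_add_distrib]
        rw [sq (∑ r ∈ range R, if r < i₀ then (1 : ℝ) else 0), Finset.sum_mul_sum]
        congr 1
        congr 1
        · simp; ring
        · have : ∀ r ∈ range R, ∑ r' ∈ range R, (if r = r' then (1 : ℝ) else 0) = 1 := by
            intro r hr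
            rw [Finset.sum_ite_eq, if_pos hr]
          rw [Finset.sum_congr rfl this]
          simp
    _ ≤ (R : ℝ) ^ 2 * (η / 2) + R + (i₀ : ℝ) ^ 2 := by
        gcongr
        rw [Finset.sum_boole]
        have h1 : (range R).filter (fun r => r < i₀) ⊆ range i₀ := by
          intro r hr
          rw [Finset.mem_filter] at hr
          exact Finset.mem_range.2 hr.2
        have := Finset.card_le_card h1
        rw [card_range] at this
        exact_mod_cast this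
    _ ≤ (R : ℝ) ^ 2 * (η / 2) + (R : ℝ) ^ 2 * (η / 2) := by
        have h1 : (R : ℝ) + (i₀ : ℝ) ^ 2 ≤ R * (1 + (i₀ : ℝ) ^ 2) := by nlinarith [sq_nonneg (i₀ : ℝ)]
        have h2 : (1 + (i₀ : ℝ) ^ 2) ≤ R * (η / 2) := by
          rw [div_lt_iff₀ hη] at hR
          linarith
        have h3 : (R : ℝ) * (1 + (i₀ : ℝ) ^ 2) ≤ R * (R * (η / 2)) := by gcongr
        nlinarith
    _ = (R : ℝ) ^ 2 * η := by ring

end Pool.Agent.H92.FB
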